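import Pool.Agent.Work.MP_1ce445_sm.Interface

/-! # Block CI: case I -/

namespace Pool.Agent.Work.MP_1ce445_sm

open Finset Pool.Agent.Work.MP_1ce445_co_56 Pool.Agent.Work.MP_1ce445_lin

theorem CI_meet {V : Type} [Fintype V] {k : ℕ} {M : Finset (Fin k)} {T : V → Finset (Fin k)}
    {c : ℝ} (hS : Sm M T c) {a b : Fin k} (hh : c * Fintype.card V < nex T a b) (w : V) :
    a ∈ T w ∨ b ∈ T w := by
  by_contra hc
  push Not at hc
  have h1 := hS.few w
  have h2 : univ.filter (fun v => T v = {a, b}) ⊆ univ.filter (fun v => T w ∩ T v = ∅) := by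
    intro v hv
    simp only [Finset.mem_filter, Finset.mem_univ, true_and] at hv ⊢
    rw [hv]
    ext x
    simp only [Finset.mem_inter, Finset.mem_insert, Finset.mem_singleton, Finset.notMem_empty,
      iff_false, not_and, not_or]
    intro hx
    exact ⟨fun h => hc.1 (h ▸ hx), fun h => hc.2 (h ▸ hx)⟩
  have h3 : (nex T a b : ℝ) ≤ ((univ.filter (fun v => T w ∩ T v = ∅)).card : ℝ) := by
    unfold nex
    exact_mod_cast Finset.card_le_card h2
  linarith

theorem CI_point {k : ℕ} {S : Finset (Fin k)} {a b : Fin k} (hab : a ≠ b) (h2 : 2 ≤ S.card)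
    (hm : a ∈ S ∨ b ∈ S) :
    2 * (if b ∉ S then 1 else 0) + 2 * (if a ∉ S then 1 else 0) ≤
      (S \ {a, b}).card + (if S.card = 2 ∧ b ∉ S then 1 else 0) +
        (if S.card = 2 ∧ a ∉ S then 1 else 0) := by
  have key : ∀ y z : Fin k, y ∈ S → z ∉ S → (S \ {y, z}).card + 1 = S.card := by
    intro y z hy hz
    have h3 : S \ {y, z} = S.erase y := by
      ext x
      simp only [Finset.mem_sdiff, Finset.mem_insert, Finset.mem_singleton, Finset.mem_erase]
      constructor
      · rintro ⟨h4, h5⟩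
        exact ⟨fun h => h5 (Or.inl h), h4⟩
      · rintro ⟨h4, h5⟩
        exact ⟨h5, fun h => h.elim h4 fun h => hz (h ▸ h5)⟩
    rw [h3]
    exact Finset.card_erase_add_one hy
  by_cases ha : a ∈ S <;> by_cases hb : b ∈ S
  · simp [ha, hb]
  · have h3 := key a b ha hb
    simp only [ha, hb, not_true_eq_false, not_false_eq_true, if_true, if_false, and_true,
      and_false]
    split_ifs <;> omega
  · have h3 := key b a hb ha
    rw [Finset.pair_comm] at h3
    simp only [ha, hb, not_true_eq_false, not_false_eq_true, if_true, if_false, and_true,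
      and_false]
    split_ifs <;> omega
  · exact absurd hm (by simp [ha, hb])

theorem CI_pr {V : Type} [Fintype V] {k : ℕ} (T : V → Finset (Fin k))
    (hN : (0 : ℝ) < Fintype.card V) (x : Fin k) :
    ((univ.filter (fun v => x ∈ T v)).card : ℝ) = pr T x * Fintype.card V := by
  unfold pr
  field_simp

theorem CI_co {V : Type} [Fintype V] {k : ℕ} (T : V → Finset (Fin k))
    (hN : (0 : ℝ) < Fintype.card V) (x : Fin k) :
    ((univ.filter (fun v => x ∉ T v)).card : ℝ) = (1 - pr T x) * Fintype.card V := by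
  have h1 := Finset.card_filter_add_card_filter_not (s := (univ : Finset V)) (fun v => x ∈ T v)
  rw [Finset.card_univ] at h1
  have h2 : ((univ.filter (fun v => x ∈ T v)).card : ℝ) +
      ((univ.filter (fun v => x ∉ T v)).card : ℝ) = Fintype.card V := by exact_mod_cast h1
  rw [CI_pr T hN] at h2
  linarith

theorem CI_pr01 {V : Type} [Fintype V] {k : ℕ} (T : V → Finset (Fin k))
    (hN : (0 : ℝ) < Fintype.card V) (x : Fin k) : 0 ≤ pr T x ∧ pr T x ≤ 1 := by
  constructor
  · unfold pr
    positivity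
  · have h1 := CI_co T hN x
    have h2 : (0 : ℝ) ≤ ((univ.filter (fun v => x ∉ T v)).card : ℝ) := by positivity
    rw [h1] at h2
    by_contra h
    push Not at h
    nlinarith

theorem CI_double {V : Type} [Fintype V] {k : ℕ} {M : Finset (Fin k)} {T : V → Finset (Fin k)}
    (hsub : ∀ v, T v ⊆ M) (hN : (0 : ℝ) < Fintype.card V) (a b : Fin k) :
    ((∑ v, ((T v) \ {a, b}).card : ℕ) : ℝ) =
      (∑ x ∈ M \ {a, b}, pr T x) * Fintype.card V := by
  have h1 : ∀ v, ((T v) \ {a, b}).card = ∑ x ∈ M \ {a, b}, if x ∈ T v then 1 else 0 := by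
    intro v
    rw [← Finset.card_filter]
    congr 1
    ext x
    simp only [Finset.mem_filter, Finset.mem_sdiff]
    constructor
    · rintro ⟨h2, h3⟩
      exact ⟨⟨hsub v h2, h3⟩, h2⟩
    · rintro ⟨⟨-, h3⟩, h2⟩
      exact ⟨h2, h3⟩
  simp_rw [h1]
  rw [Finset.sum_comm, Finset.sum_mul]
  push_cast
  refine Finset.sum_congr rfl fun x _ => ?_
  rw [← CI_pr T hN, Finset.sum_boole]

theorem CI_real {α β S c : ℝ} (hα : 0 ≤ α) (hβ : 0 ≤ β) (hc : c ≤ 7 / 250)
    (hS : 2 * α - c + (2 * β - c) ≤ S) : α * β * Real.exp (-S) ≤ 1 / 27 := by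
  have key : ∀ x : ℝ, 0 ≤ x → x ≤ Real.exp (2 * x - 1) / 2 := by
    intro x _
    have := Real.add_one_le_exp (2 * x - 1)
    linarith
  have h1 : α * β ≤ Real.exp (2 * α - 1) / 2 * (Real.exp (2 * β - 1) / 2) :=
    mul_le_mul (key α hα) (key β hβ) hβ (by positivity)
  have h2 : Real.exp (2 * α - 1) / 2 * (Real.exp (2 * β - 1) / 2) * Real.exp (-S) =
      Real.exp (2 * α + 2 * β - 2 - S) / 4 := by
    have : Real.exp (2 * α + 2 * β - 2 - S) =
        Real.exp (2 * α - 1) * Real.exp (2 * β - 1) * Real.exp (-S) := by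
      rw [← Real.exp_add, ← Real.exp_add]
      congr 1
      ring
    rw [this]
    ring
  have h3 : Real.exp (2 * α + 2 * β - 2 - S) ≤ Real.exp (-(243 / 125)) := by
    apply Real.exp_le_exp.2
    linarith
  have h4 : Real.exp (-(243 / 125)) ≤ 4 / 27 := by
    have h5 : (27 / 4 : ℝ) ≤ Real.exp (243 / 125) := by
      have h6 : Real.exp (243 / 125) = Real.exp 1 * Real.exp 1 * Real.exp (-(7 / 125)) := by
        rw [← Real.exp_add, ← Real.exp_add]
        norm_num
      have h7 := Real.add_one_le_exp (-(7 / 125) : ℝ)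
      have h8 := Real.exp_one_gt_d9
      rw [h6]
      nlinarith [Real.exp_pos (1 : ℝ), Real.exp_pos (-(7 / 125) : ℝ),
        mul_self_nonneg (Real.exp 1 - 2.7182818283)]
    rw [Real.exp_neg, show (4 / 27 : ℝ) = (27 / 4)⁻¹ by norm_num]
    exact inv_anti₀ (by norm_num) h5
  calc α * β * Real.exp (-S)
      ≤ Real.exp (2 * α - 1) / 2 * (Real.exp (2 * β - 1) / 2) * Real.exp (-S) :=
        mul_le_mul_of_nonneg_right h1 (Real.exp_pos _).le
    _ ≤ 1 / 27 := by
        rw [h2]
        linarith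

theorem stmt_CI : Stmt_CI := by
  intro V _ k M T c hS a b hab hh h1 h2
  have hN : (0 : ℝ) < Fintype.card V := by exact_mod_cast hS.pos
  have hm := CI_meet hS hh
  have haM : a ∈ M ∧ b ∈ M := by
    have h3 : (0 : ℝ) < nex T a b := by
      have := mul_nonneg hS.cl hN.le
      linarith
    have h4 : 0 < nex T a b := by exact_mod_cast h3
    unfold nex at h4
    obtain ⟨v, hv⟩ := Finset.card_pos.1 h4
    simp only [Finset.mem_filter, Finset.mem_univ, true_and] at hv
    have h5 := hS.sub v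
    rw [hv] at h5
    exact ⟨h5 (by simp), h5 (by simp)⟩
  have h3 : (2 * (univ.filter (fun v => b ∉ T v)).card +
      2 * (univ.filter (fun v => a ∉ T v)).card : ℕ) ≤
      ∑ v, ((T v) \ {a, b}).card +
      (univ.filter (fun v => (T v).card = 2 ∧ b ∉ T v)).card +
      (univ.filter (fun v => (T v).card = 2 ∧ a ∉ T v)).card := by
    have h4 := Finset.sum_le_sum fun v (_ : v ∈ (univ : Finset V)) =>
      CI_point hab (hS.two v) (hm v)
    simp only [Finset.sum_add_distrib, ← Finset.mul_sum, ← Finset.card_filter] at h4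
    exact h4
  have h5 : 2 * ((1 - pr T b) * Fintype.card V) + 2 * ((1 - pr T a) * Fintype.card V) ≤
      (∑ x ∈ M \ {a, b}, pr T x) * Fintype.card V + c * Fintype.card V +
        c * Fintype.card V := by
    rw [← CI_double hS.sub hN, ← CI_co T hN, ← CI_co T hN]
    have h6 : ((2 * (univ.filter (fun v => b ∉ T v)).card +
      2 * (univ.filter (fun v => a ∉ T v)).card : ℕ) : ℝ) ≤
      ((∑ v, ((T v) \ {a, b}).card +
      (univ.filter (fun v => (T v).card = 2 ∧ b ∉ T v)).card +
      (univ.filter (fun v => (T v).card = 2 ∧ a ∉ T v)).card : ℕ) : ℝ) := by exact_mod_cast h3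
    push_cast at h6 ⊢
    linarith
  have h7 : 2 * (1 - pr T b) - c + (2 * (1 - pr T a) - c) ≤ ∑ x ∈ M \ {a, b}, pr T x := by
    have h8 : (2 * (1 - pr T b) - c + (2 * (1 - pr T a) - c)) * (Fintype.card V : ℝ) ≤
      (∑ x ∈ M \ {a, b}, pr T x) * Fintype.card V := by linarith
    exact le_of_mul_le_mul_right h8 hN
  have h9 : ∏ x ∈ M, (1 - pr T x) =
      (1 - pr T b) * (1 - pr T a) * ∏ x ∈ M \ {a, b}, (1 - pr T x) := by
    have h10 : ({a, b} : Finset (Fin k)) ⊆ M := by
      intro x hx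
      simp only [Finset.mem_insert, Finset.mem_singleton] at hx
      rcases hx with rfl | rfl
      · exact haM.1
      · exact haM.2
    rw [← Finset.prod_sdiff h10, Finset.prod_pair hab]
    ring
  rw [h9]
  have h11 : ∏ x ∈ M \ {a, b}, (1 - pr T x) ≤ Real.exp (-∑ x ∈ M \ {a, b}, pr T x) := by
    rw [← Finset.sum_neg_distrib, Real.exp_sum]
    refine Finset.prod_le_prod (fun x _ => by linarith [(CI_pr01 T hN x).2]) fun x _ => ?_
    have := Real.add_one_le_exp (-pr T x)
    linarith
  refine le_trans (mul_le_mul_of_nonneg_left h11 ?_) (CI_real ?_ ?_ hS.cu h7)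
  · exact mul_nonneg (by linarith [(CI_pr01 T hN b).2]) (by linarith [(CI_pr01 T hN a).2])
  · linarith [(CI_pr01 T hN b).2]
  · linarith [(CI_pr01 T hN a).2]

end Pool.Agent.Work.MP_1ce445_sm
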