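import Pool.Agent.Work.MP_1ce445_sm.Interface

/-! # Block CII: two heavy pairs at one point -/

namespace Pool.Agent.Work.MP_1ce445_sm

open Finset Pool.Agent.Work.MP_1ce445_co_56 Pool.Agent.Work.MP_1ce445_lin

theorem CII_heavy {V : Type} [Fintype V] {k : ℕ} {M : Finset (Fin k)} {T : V → Finset (Fin k)}
    {c : ℝ} (hS : Sm M T c) (a b : Fin k) (h : c * Fintype.card V < nex T a b) (w : V) :
    a ∈ T w ∨ b ∈ T w := by
  by_contra hn
  push Not at hn
  have h1 : nex T a b ≤ (univ.filter (fun v => T w ∩ T v = ∅)).card := by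
    refine Finset.card_le_card fun v hv => ?_
    simp only [Finset.mem_filter, Finset.mem_univ, true_and] at hv ⊢
    rw [hv]
    ext x
    simp only [Finset.mem_inter, Finset.mem_insert, Finset.mem_singleton, Finset.notMem_empty,
      iff_false, not_and, not_or]
    intro hx
    exact ⟨fun e => hn.1 (e ▸ hx), fun e => hn.2 (e ▸ hx)⟩
  have h2 := hS.few w
  have h3 : (nex T a b : ℝ) ≤ ((univ.filter (fun v => T w ∩ T v = ∅)).card : ℝ) := by
    exact_mod_cast h1
  linarith

theorem CII_mem {V : Type} [Fintype V] {k : ℕ} {M : Finset (Fin k)} {T : V → Finset (Fin k)}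
    {c : ℝ} (hS : Sm M T c) (a b : Fin k) (h : c * Fintype.card V < nex T a b) :
    a ∈ M ∧ b ∈ M := by
  have h1 : (0 : ℝ) ≤ c * Fintype.card V := mul_nonneg hS.cl (Nat.cast_nonneg _)
  have h2 : (0 : ℝ) < nex T a b := lt_of_le_of_lt h1 h
  have h3 : 0 < nex T a b := by exact_mod_cast h2
  obtain ⟨v, hv⟩ := Finset.card_pos.1 h3
  simp only [Finset.mem_filter, Finset.mem_univ, true_and] at hv
  have h4 := hS.sub v
  rw [hv] at h4
  exact ⟨h4 (Finset.mem_insert_self a {b}), h4 (Finset.mem_insert_of_mem (Finset.mem_singleton_self b))⟩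

theorem CII_pr {V : Type} [Fintype V] {k : ℕ} (T : V → Finset (Fin k)) (x : Fin k)
    (hN : (0 : ℝ) < Fintype.card V) :
    pr T x * Fintype.card V = ∑ v, if x ∈ T v then (1 : ℝ) else 0 := by
  rw [Finset.sum_boole]
  unfold pr
  field_simp

theorem CII_pr01 {V : Type} [Fintype V] {k : ℕ} (T : V → Finset (Fin k)) (x : Fin k)
    (hN : (0 : ℝ) < Fintype.card V) : 0 ≤ pr T x ∧ pr T x ≤ 1 := by
  unfold pr
  refine ⟨by positivity, ?_⟩
  rw [div_le_one hN]
  exact_mod_cast Finset.card_le_univ _

theorem CII_sum {V : Type} [Fintype V] {k : ℕ} (M Q : Finset (Fin k)) (T : V → Finset (Fin k))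
    (hT : ∀ v, T v ⊆ M) (hN : (0 : ℝ) < Fintype.card V) :
    (∑ x ∈ M \ Q, pr T x) * Fintype.card V = ∑ v, ((T v \ Q).card : ℝ) := by
  rw [Finset.sum_mul]
  have h1 : ∀ v, ((T v \ Q).card : ℝ) = ∑ x ∈ M \ Q, if x ∈ T v then (1 : ℝ) else 0 := by
    intro v
    rw [Finset.sum_boole]
    congr 2
    ext x
    simp only [Finset.mem_sdiff, Finset.mem_filter]
    exact ⟨fun h => ⟨⟨hT v h.1, h.2⟩, h.1⟩, fun h => ⟨h.2, h.1.2⟩⟩
  simp_rw [h1]
  rw [Finset.sum_comm]
  exact Finset.sum_congr rfl fun x _ => CII_pr T x hN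

theorem CII_point {V : Type} [Fintype V] {k : ℕ} {M : Finset (Fin k)} {T : V → Finset (Fin k)}
    {c : ℝ} (hS : Sm M T c) (a b d : Fin k) (hab : a ≠ b) (had : a ≠ d)
    (h1 : c * Fintype.card V < nex T a b) (h2 : c * Fintype.card V < nex T a d)
    (hJ : Ja T a ⊆ {b, d}) (v : V) :
    3 * (if a ∈ T v then (0 : ℝ) else 1) - (if T v = {b, d} then (1 : ℝ) else 0) + 2 ≤
      2 * (if b ∈ T v then (1 : ℝ) else 0) + 2 * (if d ∈ T v then (1 : ℝ) else 0) +
        ((T v \ {a, b, d}).card : ℝ) := by
  have hs0 : (0 : ℝ) ≤ ((T v \ {a, b, d}).card : ℝ) := Nat.cast_nonneg _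
  by_cases ha : a ∈ T v
  · have hne : T v ≠ {b, d} := by
      intro e
      rw [e] at ha
      simp only [Finset.mem_insert, Finset.mem_singleton] at ha
      rcases ha with h | h
      · exact hab h
      · exact had h
    rw [if_pos ha, if_neg hne]
    by_cases hb : b ∈ T v
    · rw [if_pos hb]
      split_ifs <;> linarith
    · by_cases hd : d ∈ T v
      · rw [if_pos hd, if_neg hb]
        linarith
      · rw [if_neg hb, if_neg hd]
        have h3 : T v \ {a, b, d} = (T v).erase a := by
          ext x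
          simp only [Finset.mem_sdiff, Finset.mem_insert, Finset.mem_singleton, Finset.mem_erase,
            not_or]
          constructor
          · rintro ⟨hx, hxa, _, _⟩
            exact ⟨hxa, hx⟩
          · rintro ⟨hxa, hx⟩
            exact ⟨hx, hxa, fun e => hb (e ▸ hx), fun e => hd (e ▸ hx)⟩
        have h4 : (T v).card ≠ 2 := by
          intro h5
          obtain ⟨j, hj⟩ : ∃ j, (T v).erase a = {j} := by
            rw [← Finset.card_eq_one, Finset.card_erase_of_mem ha, h5]
          have h6 : T v = {a, j} := by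
            rw [← Finset.insert_erase ha, hj]
          have hja : j ≠ a := by
            have : j ∈ (T v).erase a := by rw [hj]; exact Finset.mem_singleton_self j
            exact (Finset.mem_erase.1 this).1
          have hjJ : j ∈ Ja T a := by
            simp only [Ja, Finset.mem_filter, Finset.mem_univ, true_and]
            refine ⟨hja, ?_⟩
            refine Finset.card_pos.2 ⟨v, ?_⟩
            simp only [Finset.mem_filter, Finset.mem_univ, true_and]
            exact h6
          have hjT : j ∈ T v := by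
            rw [h6]
            exact Finset.mem_insert_of_mem (Finset.mem_singleton_self j)
          have h7 := hJ hjJ
          simp only [Finset.mem_insert, Finset.mem_singleton] at h7
          rcases h7 with e | e
          · exact hb (e ▸ hjT)
          · exact hd (e ▸ hjT)
        have h5 : 2 ≤ ((T v).erase a).card := by
          rw [Finset.card_erase_of_mem ha]
          have := hS.two v
          omega
        rw [h3]
        have h6 : (2 : ℝ) ≤ (((T v).erase a).card : ℝ) := by exact_mod_cast h5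
        linarith
  · have hb : b ∈ T v := by
      rcases CII_heavy hS a b h1 v with h | h
      · exact absurd h ha
      · exact h
    have hd : d ∈ T v := by
      rcases CII_heavy hS a d h2 v with h | h
      · exact absurd h ha
      · exact h
    rw [if_neg ha, if_pos hb, if_pos hd]
    by_cases he : T v = {b, d}
    · rw [if_pos he]
      linarith
    · rw [if_neg he]
      have h3 : ∃ x ∈ T v, x ≠ b ∧ x ≠ d := by
        by_contra hn
        push Not at hn
        apply he
        ext x
        simp only [Finset.mem_insert, Finset.mem_singleton]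
        constructor
        · intro hx
          by_cases hxb : x = b
          · exact Or.inl hxb
          · exact Or.inr (hn x hx hxb)
        · rintro (e | e)
          · exact e ▸ hb
          · exact e ▸ hd
      obtain ⟨x, hx, hxb, hxd⟩ := h3
      have h4 : 0 < (T v \ {a, b, d}).card := by
        refine Finset.card_pos.2 ⟨x, ?_⟩
        simp only [Finset.mem_sdiff, Finset.mem_insert, Finset.mem_singleton, not_or]
        exact ⟨hx, fun e => ha (e ▸ hx), hxb, hxd⟩
      have h5 : (1 : ℝ) ≤ ((T v \ {a, b, d}).card : ℝ) := by exact_mod_cast h4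
      linarith

theorem CII_real (c β u w S P : ℝ) (hc : c ≤ 7 / 250) (hβ : 0 ≤ β) (hu : 0 ≤ u) (hw : 0 ≤ w)
    (hP0 : 0 ≤ P) (hP : P ≤ Real.exp (-S)) (h : 3 * β - c + 2 ≤ 2 * (1 - u) + 2 * (1 - w) + S) :
    β * (u * (w * P)) ≤ 1 / 27 := by
  have e1 : u ≤ Real.exp (2 * u - 1) / 2 := by
    have := Real.add_one_le_exp (2 * u - 1)
    linarith
  have e2 : w ≤ Real.exp (2 * w - 1) / 2 := by
    have := Real.add_one_le_exp (2 * w - 1)
    linarith
  have e3 : β ≤ Real.exp (3 * β - 1) / 3 := by
    have := Real.add_one_le_exp (3 * β - 1)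
    linarith
  have h1 : w * P ≤ Real.exp (2 * w - 1) / 2 * Real.exp (-S) :=
    mul_le_mul e2 hP hP0 (by positivity)
  have h2 : u * (w * P) ≤ Real.exp (2 * u - 1) / 2 * (Real.exp (2 * w - 1) / 2 * Real.exp (-S)) :=
    mul_le_mul e1 h1 (mul_nonneg hw hP0) (by positivity)
  have h3 : β * (u * (w * P)) ≤ Real.exp (3 * β - 1) / 3 *
      (Real.exp (2 * u - 1) / 2 * (Real.exp (2 * w - 1) / 2 * Real.exp (-S))) :=
    mul_le_mul e3 h2 (mul_nonneg hu (mul_nonneg hw hP0)) (by positivity)
  have h4 : Real.exp (3 * β - 1) / 3 *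
      (Real.exp (2 * u - 1) / 2 * (Real.exp (2 * w - 1) / 2 * Real.exp (-S))) =
      Real.exp ((3 * β - 1) + ((2 * u - 1) + ((2 * w - 1) + -S))) / 12 := by
    rw [Real.exp_add, Real.exp_add, Real.exp_add]
    ring
  have h5 : Real.exp ((3 * β - 1) + ((2 * u - 1) + ((2 * w - 1) + -S))) ≤ Real.exp (c - 1) :=
    Real.exp_le_exp.2 (by linarith)
  have h6 : Real.exp (c - 1) ≤ 4 / 9 := by
    have h7 : Real.exp (c - 1) ≤ Real.exp (-(1 - 7 / 250)) := Real.exp_le_exp.2 (by linarith)
    have h8 : (9 / 4 : ℝ) ≤ Real.exp (1 - 7 / 250) := by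
      have h9 : Real.exp (1 - 7 / 250) = Real.exp 1 * Real.exp (-(7 / 250)) := by
        rw [← Real.exp_add]
        congr 1
      have h10 := Real.exp_one_gt_d9
      have h11 := Real.add_one_le_exp (-(7 / 250) : ℝ)
      rw [h9]
      nlinarith
    rw [Real.exp_neg] at h7
    have h12 : (Real.exp (1 - 7 / 250))⁻¹ ≤ (9 / 4 : ℝ)⁻¹ :=
      inv_anti₀ (by norm_num) h8
    have h13 : ((9 / 4 : ℝ)⁻¹) = 4 / 9 := by norm_num
    linarith
  rw [h4] at h3
  linarith

theorem stmt_CII : Stmt_CII := by
  intro V _ k M T c hS a b d hab had hbd h1 h2 h3 hJ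
  have hN : (0 : ℝ) < Fintype.card V := by exact_mod_cast hS.pos
  have ha := (CII_mem hS a b h1).1
  have hb := (CII_mem hS a b h1).2
  have hd := (CII_mem hS a d h2).2
  have hsum := Finset.sum_le_sum fun (v : V) (_ : v ∈ (univ : Finset V)) =>
    CII_point hS a b d hab had h1 h2 hJ v
  simp only [Finset.sum_add_distrib, Finset.sum_sub_distrib, ← Finset.mul_sum] at hsum
  rw [← CII_pr T b hN, ← CII_pr T d hN, ← CII_sum M {a, b, d} T hS.sub hN] at hsum
  have h4 : ∑ v, (if a ∈ T v then (0 : ℝ) else 1) = (1 - pr T a) * Fintype.card V := by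
    have h5 := CII_pr T a hN
    have h6 : ∑ v, (if a ∈ T v then (0 : ℝ) else 1) =
        ∑ v : V, ((1 : ℝ) - (if a ∈ T v then (1 : ℝ) else 0)) := by
      refine Finset.sum_congr rfl fun v _ => ?_
      split_ifs <;> norm_num
    rw [h6, Finset.sum_sub_distrib, ← h5, Finset.sum_const, nsmul_eq_mul, Finset.card_univ]
    ring
  have h5 : ∑ v, (if T v = {b, d} then (1 : ℝ) else 0) = nex T b d := by
    rw [Finset.sum_boole]
    rfl
  have h6 : ∑ _v : V, (2 : ℝ) = 2 * Fintype.card V := by
    rw [Finset.sum_const, nsmul_eq_mul, Finset.card_univ]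
    ring
  rw [h4, h5, h6] at hsum
  set S := ∑ x ∈ M \ {a, b, d}, pr T x with hSd
  have h7 : 3 * (1 - pr T a) - c + 2 ≤ 2 * (1 - (1 - pr T b)) + 2 * (1 - (1 - pr T d)) + S := by
    have h8 : (3 * (1 - pr T a) - c + 2) * (Fintype.card V : ℝ) ≤
        (2 * (1 - (1 - pr T b)) + 2 * (1 - (1 - pr T d)) + S) * Fintype.card V := by
      nlinarith
    exact le_of_mul_le_mul_right h8 hN
  have p0 := fun x => CII_pr01 T x hN
  have hprod : ∏ x ∈ M, (1 - pr T x) = (1 - pr T a) * ((1 - pr T b) * ((1 - pr T d) *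
      ∏ x ∈ M \ {a, b, d}, (1 - pr T x))) := by
    have hb' : b ∈ M.erase a := Finset.mem_erase.2 ⟨hab.symm, hb⟩
    have hd' : d ∈ (M.erase a).erase b :=
      Finset.mem_erase.2 ⟨hbd.symm, Finset.mem_erase.2 ⟨had.symm, hd⟩⟩
    rw [← Finset.mul_prod_erase M _ ha, ← Finset.mul_prod_erase _ _ hb',
      ← Finset.mul_prod_erase _ _ hd']
    have he : ((M.erase a).erase b).erase d = M \ {a, b, d} := by
      ext x
      simp only [Finset.mem_erase, Finset.mem_sdiff, Finset.mem_insert, Finset.mem_singleton,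
        not_or]
      tauto
    rw [he]
  rw [hprod]
  refine CII_real c (1 - pr T a) (1 - pr T b) (1 - pr T d) S _ hS.cu
    (by linarith [(p0 a).2]) (by linarith [(p0 b).2]) (by linarith [(p0 d).2])
    (Finset.prod_nonneg fun x _ => by linarith [(p0 x).2]) ?_ h7
  rw [hSd, ← Finset.sum_neg_distrib, Real.exp_sum]
  refine Finset.prod_le_prod (fun x _ => by linarith [(p0 x).2]) fun x _ => ?_
  have := Real.add_one_le_exp (-pr T x)
  linarith

end Pool.Agent.Work.MP_1ce445_sm
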