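import Pool.Agent.Work.MP_1ce445_sm.Interface

/-! # Block FEW: few sets with two elements (helper95) -/

namespace Pool.Agent.Work.MP_1ce445_sm

open Finset Pool.Agent.Work.MP_1ce445_co_56 Pool.Agent.Work.MP_1ce445_lin

theorem FEW_pr {V : Type} [Fintype V] {k : ℕ} (T : V → Finset (Fin k)) (j : Fin k)
    (hN : 0 < Fintype.card V) :
    pr T j * Fintype.card V = ((univ.filter (fun v => j ∈ T v)).card : ℝ) := by
  have h : (Fintype.card V : ℝ) ≠ 0 := by exact_mod_cast hN.ne'
  unfold pr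
  rw [div_mul_cancel₀ _ h]

theorem FEW_range {V : Type} [Fintype V] {k : ℕ} (T : V → Finset (Fin k)) (j : Fin k)
    (hN : 0 < Fintype.card V) : 0 ≤ pr T j ∧ pr T j ≤ 1 := by
  have hN' : (0 : ℝ) < Fintype.card V := by exact_mod_cast hN
  constructor
  · unfold pr
    positivity
  · have h2 : (univ.filter (fun v => j ∈ T v)).card ≤ Fintype.card V := by
      rw [← Finset.card_univ]
      exact Finset.card_le_card (Finset.filter_subset _ _)
    have h3 : ((univ.filter (fun v => j ∈ T v)).card : ℝ) ≤ Fintype.card V := by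
      exact_mod_cast h2
    unfold pr
    rw [div_le_one hN']
    exact h3

theorem FEW_four {V : Type} [Fintype V] {k : ℕ} {M : Finset (Fin k)} {T : V → Finset (Fin k)}
    {c : ℝ} (h : Sm M T c) (v : V) : 1 - c ≤ ∑ j ∈ T v, pr T j := by
  classical
  have hN : (0 : ℝ) < Fintype.card V := by exact_mod_cast h.pos
  have h1 : univ \ (univ.filter (fun w => T v ∩ T w = ∅)) ⊆
      (T v).biUnion (fun j => univ.filter (fun w => j ∈ T w)) := by
    intro w hw
    rw [Finset.mem_sdiff, Finset.mem_filter] at hw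
    have h2 : T v ∩ T w ≠ ∅ := fun h => hw.2 ⟨Finset.mem_univ w, h⟩
    obtain ⟨j, hj⟩ := Finset.nonempty_iff_ne_empty.2 h2
    rw [Finset.mem_inter] at hj
    rw [Finset.mem_biUnion]
    exact ⟨j, hj.1, Finset.mem_filter.2 ⟨Finset.mem_univ w, hj.2⟩⟩
  have h2 : (univ \ (univ.filter (fun w => T v ∩ T w = ∅))).card ≤
      ∑ j ∈ T v, (univ.filter (fun w => j ∈ T w)).card :=
    (Finset.card_le_card h1).trans Finset.card_biUnion_le
  have h3 : Fintype.card V ≤ (univ.filter (fun w => T v ∩ T w = ∅)).card +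
      ∑ j ∈ T v, (univ.filter (fun w => j ∈ T w)).card := by
    have h4 := Finset.card_sdiff_add_card_eq_card
      (Finset.subset_univ (univ.filter (fun w => T v ∩ T w = ∅)))
    rw [Finset.card_univ] at h4
    omega
  have h5 : (Fintype.card V : ℝ) ≤ ((univ.filter (fun w => T v ∩ T w = ∅)).card : ℝ) +
      ∑ j ∈ T v, ((univ.filter (fun w => j ∈ T w)).card : ℝ) := by
    exact_mod_cast h3
  have h6 : ∑ j ∈ T v, ((univ.filter (fun w => j ∈ T w)).card : ℝ) =
      (∑ j ∈ T v, pr T j) * Fintype.card V := by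
    rw [Finset.sum_mul]
    exact Finset.sum_congr rfl fun j _ => (FEW_pr T j h.pos).symm
  rw [h6] at h5
  have h7 := h.few v
  have h8 : (1 - c) * (Fintype.card V : ℝ) ≤ (∑ j ∈ T v, pr T j) * Fintype.card V := by
    linarith
  exact le_of_mul_le_mul_right h8 hN

theorem FEW_five {V : Type} [Fintype V] {k : ℕ} {M : Finset (Fin k)} {T : V → Finset (Fin k)}
    (hN : 0 < Fintype.card V) (hT : ∀ v, T v ⊆ M) :
    ∑ j ∈ M, pr T j * Fintype.card V = ∑ v, ((T v).card : ℝ) := by
  classical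
  have h1 : ∑ j ∈ M, (univ.filter (fun v => j ∈ T v)).card = ∑ v, (T v).card := by
    have h2 : ∀ j ∈ M, (univ.filter (fun v => j ∈ T v)).card = ∑ v, if j ∈ T v then 1 else 0 :=
      fun j _ => Finset.card_filter _ _
    rw [Finset.sum_congr rfl h2, Finset.sum_comm]
    refine Finset.sum_congr rfl fun v _ => ?_
    rw [← Finset.card_filter]
    congr 1
    ext j
    rw [Finset.mem_filter]
    exact ⟨fun hj => hj.2, fun hj => ⟨hT v hj, hj⟩⟩
  have h3 : ∑ j ∈ M, pr T j * Fintype.card V =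
      ((∑ j ∈ M, (univ.filter (fun v => j ∈ T v)).card : ℕ) : ℝ) := by
    rw [Nat.cast_sum]
    exact Finset.sum_congr rfl fun j _ => FEW_pr T j hN
  rw [h3, h1, Nat.cast_sum]

theorem FEW_sum {V : Type} [Fintype V] {k : ℕ} (M : Finset (Fin k)) (T : V → Finset (Fin k))
    (hT : ∀ v, T v ⊆ M) (hN : (0 : ℝ) < Fintype.card V) :
    ∑ v, ∑ j ∈ T v, pr T j = (∑ j ∈ M, pr T j ^ 2) * Fintype.card V := by
  have h1 : ∀ v, ∑ j ∈ T v, pr T j = ∑ j ∈ M, if j ∈ T v then pr T j else 0 := by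
    intro v
    rw [← Finset.sum_filter]
    congr 1
    ext j
    simp only [Finset.mem_filter]
    exact ⟨fun h => ⟨hT v h, h⟩, fun h => h.2⟩
  simp_rw [h1]
  rw [Finset.sum_comm, Finset.sum_mul]
  refine Finset.sum_congr rfl fun j _ => ?_
  rw [← Finset.sum_filter, Finset.sum_const, nsmul_eq_mul]
  have h2 : ((univ.filter (fun v => j ∈ T v)).card : ℝ) = pr T j * Fintype.card V := by
    unfold pr
    field_simp
  rw [h2]
  ring

/-- `exp (-3.302) ≤ 1/27` -/
theorem FEW_exp : Real.exp (-(26 / 27 * (27 / 10) + 13 / 18 * (243 / 250))) ≤ 1 / 27 := by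
  have e : -(26 / 27 * (27 / 10) + 13 / 18 * (243 / 250) : ℝ) = -(3302 / 1000) := by norm_num
  rw [e, Real.exp_neg, one_div]
  apply inv_anti₀ (by norm_num)
  have h1 : Real.exp (3302 / 1000) = Real.exp 1 * Real.exp 1 * Real.exp 1 * Real.exp (302 / 1000) := by
    rw [← Real.exp_add, ← Real.exp_add, ← Real.exp_add]
    congr 1
    norm_num
  have h2 := Real.exp_one_gt_d9
  have h3 : 1 + 302 / 1000 + (302 / 1000) ^ 2 / 2 ≤ Real.exp (302 / 1000) :=
    Real.quadratic_le_exp_of_nonneg (by norm_num)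
  have h4 : (27182818283 / 10000000000 : ℝ) < Real.exp 1 := by
    norm_num at h2 ⊢
    exact h2
  have h5 : (738 / 100 : ℝ) ≤ Real.exp 1 * Real.exp 1 := by nlinarith
  have h6 : (20 : ℝ) ≤ Real.exp 1 * Real.exp 1 * Real.exp 1 := by nlinarith
  have h6' : (20085 / 1000 : ℝ) ≤ Real.exp 1 * Real.exp 1 * Real.exp 1 := by
    have : (7389 / 1000 : ℝ) ≤ Real.exp 1 * Real.exp 1 := by nlinarith
    nlinarith
  rw [h1]
  have h7 : (1347 / 1000 : ℝ) ≤ Real.exp (302 / 1000) := by
    norm_num at h3 ⊢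
    linarith
  nlinarith [Real.exp_pos 1]

theorem stmt_FEW (h1 : Stmt_TAN) : Stmt_FEW := by
  classical
  intro V _ k M T c hS hf
  have hN : (0 : ℝ) < Fintype.card V := by exact_mod_cast hS.pos
  have b1 := fun j => FEW_range T j hS.pos
  have hs1 : 27 / 10 ≤ ∑ j ∈ M, pr T j := by
    have h4 : (∑ j ∈ M, pr T j) * Fintype.card V = ∑ v, ((T v).card : ℝ) := by
      rw [Finset.sum_mul]
      exact FEW_five hS.pos hS.sub
    have h5 : ∑ v : V, ((3 : ℝ) - if (T v).card = 2 then 1 else 0) ≤ ∑ v, ((T v).card : ℝ) := by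
      refine Finset.sum_le_sum fun v _ => ?_
      have h2 := hS.two v
      by_cases h3 : (T v).card = 2
      · rw [if_pos h3, h3]
        norm_num
      · rw [if_neg h3]
        have h4 : 3 ≤ (T v).card := by omega
        have h5 : (3 : ℝ) ≤ ((T v).card : ℝ) := by exact_mod_cast h4
        linarith
    have h6 : ∑ v : V, (if (T v).card = 2 then (1 : ℝ) else 0) =
        ((univ.filter (fun v => (T v).card = 2)).card : ℝ) := by
      rw [Finset.card_filter]
      push_cast
      rfl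
    rw [Finset.sum_sub_distrib, h6, Finset.sum_const, nsmul_eq_mul, ← h4, Finset.card_univ] at h5
    have h7 : 27 / 10 * (Fintype.card V : ℝ) ≤ (∑ j ∈ M, pr T j) * Fintype.card V := by linarith
    exact le_of_mul_le_mul_right h7 hN
  have hs2 : 243 / 250 ≤ ∑ j ∈ M, pr T j ^ 2 := by
    have h5 : ∑ _v : V, (1 - c) ≤ ∑ v, ∑ j ∈ T v, pr T j :=
      Finset.sum_le_sum fun v _ => FEW_four hS v
    rw [Finset.sum_const, nsmul_eq_mul, FEW_sum M T hS.sub hN, Finset.card_univ] at h5
    have h6 : (1 - c) * (Fintype.card V : ℝ) ≤ (∑ j ∈ M, pr T j ^ 2) * Fintype.card V := by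
      linarith
    have h7 := le_of_mul_le_mul_right h6 hN
    have h8 := hS.cu
    linarith
  have h7 : ∏ x ∈ M, (1 - pr T x) ≤
      ∏ x ∈ M, Real.exp (-(26 / 27 * pr T x + 13 / 18 * pr T x ^ 2)) :=
    Finset.prod_le_prod (fun x _ => by linarith [(b1 x).2])
      fun x _ => (h1 (pr T x) (b1 x).1 (b1 x).2).2
  refine h7.trans ?_
  rw [← Real.exp_sum]
  refine le_trans (Real.exp_le_exp.2 ?_) FEW_exp
  rw [Finset.sum_neg_distrib, Finset.sum_add_distrib, ← Finset.mul_sum, ← Finset.mul_sum]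
  linarith

end Pool.Agent.Work.MP_1ce445_sm
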