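import Pool.Agent.Work.MP_1ce445_sm.Interface

/-!
Block HEA: existence of a heavy pair.
-/

namespace Pool.Agent.Work.MP_1ce445_sm

open Finset Pool.Agent.Work.MP_1ce445_co_56 Pool.Agent.Work.MP_1ce445_lin

lemma HEA_card {V : Type} [Fintype V] {k : ℕ} (T : V → Finset (Fin k)) (a : Fin k) (B : ℝ)
    (hJ : (Ja T a).card ≤ 2) (hB : 0 ≤ B) (h : ∀ j, j ≠ a → (nex T a j : ℝ) ≤ B) :
    ((univ.filter (fun w => (T w).card = 2 ∧ a ∈ T w)).card : ℝ) ≤ 2 * B := by
  classical
  have hsub : univ.filter (fun w => (T w).card = 2 ∧ a ∈ T w) ⊆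
      (Ja T a).biUnion (fun j => univ.filter (fun w => T w = {a, j})) := by
    intro w hw
    simp only [mem_filter, mem_univ, true_and] at hw
    obtain ⟨h2, ha⟩ := hw
    obtain ⟨j, hj, hTw⟩ : ∃ j, j ≠ a ∧ T w = {a, j} := by
      obtain ⟨x, y, hxy, he⟩ := Finset.card_eq_two.mp h2
      rw [he] at ha
      simp only [mem_insert, mem_singleton] at ha
      rcases ha with h | h
      · exact ⟨y, by rw [h]; exact hxy.symm, by rw [he, h]⟩
      · exact ⟨x, by rw [h]; exact hxy, by rw [he, h, Finset.pair_comm]⟩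
    have hJm : j ∈ Ja T a := by
      simp only [Ja, mem_filter, mem_univ, true_and]
      refine ⟨hj, ?_⟩
      unfold nex
      exact Finset.card_pos.mpr ⟨w, by simp [hTw]⟩
    simp only [mem_biUnion]
    exact ⟨j, hJm, by simp [hTw]⟩
  have h1 : ((univ.filter (fun w => (T w).card = 2 ∧ a ∈ T w)).card) ≤
      ∑ j ∈ Ja T a, nex T a j :=
    (Finset.card_le_card hsub).trans Finset.card_biUnion_le
  have h2 : (∑ j ∈ Ja T a, (nex T a j : ℝ)) ≤ (Ja T a).card * B := by
    rw [← nsmul_eq_mul]
    apply Finset.sum_le_card_nsmul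
    intro j hj
    simp only [Ja, mem_filter, mem_univ, true_and] at hj
    exact h j hj.1
  have h3 : ((Ja T a).card : ℝ) ≤ 2 := by exact_mod_cast hJ
  have h4 : (((univ.filter (fun w => (T w).card = 2 ∧ a ∈ T w)).card : ℕ) : ℝ) ≤
      ∑ j ∈ Ja T a, (nex T a j : ℝ) := by exact_mod_cast h1
  have h5 : ((Ja T a).card : ℝ) * B ≤ 2 * B := mul_le_mul_of_nonneg_right h3 hB
  linarith

theorem stmt_HEA : Stmt_HEA := by
  classical
  intro V _ k M T c hS hJ h2
  by_contra hcon
  push Not at hcon
  have hN : (0 : ℝ) < Fintype.card V := by exact_mod_cast hS.pos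
  have hB : 0 ≤ c * (Fintype.card V : ℝ) := mul_nonneg hS.cl hN.le
  have hpos : 0 < (univ.filter (fun v => (T v).card = 2)).card := by
    have : (0 : ℝ) < ((univ.filter (fun v => (T v).card = 2)).card : ℝ) := by
      refine lt_trans ?_ h2
      positivity
    exact_mod_cast this
  obtain ⟨v, hv⟩ := Finset.card_pos.mp hpos
  simp only [mem_filter, mem_univ, true_and] at hv
  obtain ⟨x, y, hxy, he⟩ := Finset.card_eq_two.mp hv
  have hx := HEA_card T x (c * Fintype.card V) (hJ x) hB (fun j hj => hcon x j hj.symm)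
  have hy := HEA_card T y (c * Fintype.card V) (hJ y) hB (fun j hj => hcon y j hj.symm)
  have hf := hS.few v
  have hsub : univ.filter (fun w => (T w).card = 2) ⊆
      (univ.filter (fun w => T v ∩ T w = ∅) ∪
        univ.filter (fun w => (T w).card = 2 ∧ x ∈ T w)) ∪
        univ.filter (fun w => (T w).card = 2 ∧ y ∈ T w) := by
    intro w hw
    simp only [mem_filter, mem_univ, true_and] at hw
    simp only [mem_union, mem_filter, mem_univ, true_and, hw]
    by_cases h1 : x ∈ T w
    · exact Or.inl (Or.inr h1)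
    by_cases h3 : y ∈ T w
    · exact Or.inr h3
    refine Or.inl (Or.inl ?_)
    rw [he]
    ext z
    simp only [mem_inter, mem_insert, mem_singleton, notMem_empty, iff_false, not_and]
    rintro (hz | hz)
    · rw [hz]; exact h1
    · rw [hz]; exact h3
  have hc : ((univ.filter (fun w => (T w).card = 2)).card : ℝ) ≤
      ((univ.filter (fun w => T v ∩ T w = ∅)).card : ℝ) +
      ((univ.filter (fun w => (T w).card = 2 ∧ x ∈ T w)).card : ℝ) +
      ((univ.filter (fun w => (T w).card = 2 ∧ y ∈ T w)).card : ℝ) := by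
    have h6 := (Finset.card_le_card hsub).trans
      ((Finset.card_union_le _ _).trans (Nat.add_le_add_right (Finset.card_union_le _ _) _))
    exact_mod_cast h6
  have hcu : c * (Fintype.card V : ℝ) ≤ 7 / 250 * Fintype.card V :=
    mul_le_mul_of_nonneg_right hS.cu hN.le
  linarith

end Pool.Agent.Work.MP_1ce445_sm
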