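import Pool.Agent.Work.MP_1ce445_sm.Interface
import Pool.Agent.Work.MP_1ce445_co_56.Lower

/-!
Block LE3: the lower bound for even `n`.
-/

namespace Pool.Agent.Work.MP_1ce445_sm

open Finset Pool.Agent.Work.MP_1ce445_co_56 Pool.Agent.Work.MP_1ce445_lin

section LE3

set_option linter.unusedSectionVars false

variable {q : ℕ} [NeZero q] {m : ℕ}

/-- label of a pair -/
def LE3_lab : Option (ZMod q) → Option (ZMod q) → ZMod q
  | some x, some y => x + y
  | none, some x => x + x
  | some x, none => x + x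
  | none, none => 0

lemma LE3_lab_symm (v w : Option (ZMod q)) : LE3_lab v w = LE3_lab w v := by
  rcases v with _ | x <;> rcases w with _ | y <;> simp [LE3_lab, add_comm]

/-- half of a residue, `q` odd -/
def LE3_half (i : ZMod q) : ZMod q := i * (((q + 1) / 2 : ℕ) : ZMod q)

lemma LE3_half_add (hq : Odd q) (i : ZMod q) : LE3_half i + LE3_half i = i := by
  obtain ⟨r, hr⟩ := hq
  have h1 : (((q + 1) / 2 : ℕ) : ZMod q) + (((q + 1) / 2 : ℕ) : ZMod q) = 1 := by
    have h2 : (q + 1) / 2 + (q + 1) / 2 = q + 1 := by omega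
    rw [← Nat.cast_add, h2]
    simp
  unfold LE3_half
  rw [← mul_add, h1, mul_one]

lemma LE3_dbl (hq : Odd q) {x y : ZMod q} (h : x + x = y + y) : x = y := by
  have h1 : ∀ z : ZMod q, LE3_half (z + z) = z := by
    intro z
    have h2 := LE3_half_add hq z
    unfold LE3_half at h2 ⊢
    rw [← add_mul] at h2
    exact h2
  rw [← h1 x, h, h1 y]

/-- the partner of a vertex in the class of a label -/
def LE3_mate (i : ZMod q) : Option (ZMod q) → Option (ZMod q)
  | none => some (LE3_half i)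
  | some x => if i - x = x then none else some (i - x)

lemma LE3_mate_ne (i : ZMod q) (v : Option (ZMod q)) : LE3_mate i v ≠ v := by
  rcases v with _ | x
  · simp [LE3_mate]
  · simp only [LE3_mate]
    split_ifs with h
    · simp
    · simpa using h

lemma LE3_lab_mate (hq : Odd q) (i : ZMod q) (v : Option (ZMod q)) :
    LE3_lab v (LE3_mate i v) = i := by
  rcases v with _ | x
  · simp [LE3_mate, LE3_lab, LE3_half_add hq]
  · simp only [LE3_mate]
    split_ifs with h
    · simp only [LE3_lab]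
      rw [← h]
      nth_rewrite 2 [h]
      simp
    · simp [LE3_lab]

lemma LE3_uniq (hq : Odd q) {i : ZMod q} {v w : Option (ZMod q)} (h : v ≠ w)
    (h1 : LE3_lab v w = i) : w = LE3_mate i v := by
  rcases v with _ | x <;> rcases w with _ | y
  · exact absurd rfl h
  · simp only [LE3_lab] at h1
    simp only [LE3_mate, Option.some.injEq]
    apply LE3_dbl hq
    rw [h1, LE3_half_add hq]
  · simp only [LE3_lab] at h1
    have h2 : i - x = x := by rw [← h1]; simp
    simp [LE3_mate, h2]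
  · simp only [LE3_lab] at h1
    have h2 : i - x = y := by rw [← h1]; simp
    have h3 : y ≠ x := fun h4 => h (by rw [h4])
    simp [LE3_mate, h2, h3]

lemma LE3_mate_mate (hq : Odd q) (i : ZMod q) (v : Option (ZMod q)) :
    LE3_mate i (LE3_mate i v) = v := by
  symm
  apply LE3_uniq hq (LE3_mate_ne i v)
  rw [LE3_lab_symm, LE3_lab_mate hq]

lemma LE3_mate_inj (hq : Odd q) (i : ZMod q) : Function.Injective (LE3_mate i) := by
  intro v w h
  rw [← LE3_mate_mate hq i v, h, LE3_mate_mate hq]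

/-- the class of a vertex -/
def LE3_blk : Option (ZMod q) → ZMod 3
  | some x => (x.val : ZMod 3)
  | none => 2

/-- the colouring -/
def LE3_cl (m : ℕ) (v w : Option (ZMod q)) : ℕ ⊕ ZMod 3 :=
  if (LE3_lab v w).val < m then .inl (LE3_lab v w).val
  else if (LE3_lab v w).val < m + 3 then .inr (((LE3_lab v w).val - m : ℕ) : ZMod 3)
  else .inr (third (LE3_blk v) (LE3_blk w))

lemma LE3_cl_symm (v w : Option (ZMod q)) : LE3_cl m v w = LE3_cl m w v := by
  unfold LE3_cl
  rw [LE3_lab_symm v w, third_comm]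

/-- colour names -/
def LE3_em {m : ℕ} : Fin m ⊕ ZMod 3 → ℕ ⊕ ZMod 3
  | .inl s => .inl s.val
  | .inr a => .inr a

lemma LE3_em_inj : Function.Injective (LE3_em (m := m)) := by
  rintro (s | a) (t | b) h
  · simp only [LE3_em, Sum.inl.injEq] at h
    rw [Fin.ext h]
  · simp [LE3_em] at h
  · simp [LE3_em] at h
  · simp only [LE3_em, Sum.inr.injEq] at h
    rw [h]

/-- colour classes -/
def LE3_gr (c : Fin m ⊕ ZMod 3) : SimpleGraph (Option (ZMod q)) where
  Adj x y := x ≠ y ∧ LE3_cl m x y = LE3_em c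
  symm := ⟨fun x y h => ⟨h.1.symm, by rw [LE3_cl_symm]; exact h.2⟩⟩
  loopless := ⟨fun _ h => h.1 rfl⟩

/-- the label of the matching in the colour `c` -/
def LE3_lb {m : ℕ} : Fin m ⊕ ZMod 3 → ℕ
  | .inl s => s.val
  | .inr a => m + a.val

lemma LE3_lb_lt (hm : m + 3 ≤ q) (c : Fin m ⊕ ZMod 3) : LE3_lb c < q := by
  rcases c with s | a
  · have := s.isLt
    simp only [LE3_lb]
    omega
  · have : a.val < 3 := ZMod.val_lt a
    simp only [LE3_lb]
    omega

lemma LE3_adj_mate (hq : Odd q) (hm : m + 3 ≤ q) (c : Fin m ⊕ ZMod 3)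
    (v : Option (ZMod q)) : (LE3_gr c).Adj v (LE3_mate ((LE3_lb c : ℕ) : ZMod q) v) := by
  refine ⟨(LE3_mate_ne _ _).symm, ?_⟩
  have e : (LE3_lab v (LE3_mate ((LE3_lb c : ℕ) : ZMod q) v)).val = LE3_lb c := by
    rw [LE3_lab_mate hq, ZMod.val_natCast_of_lt (LE3_lb_lt hm c)]
  generalize LE3_mate ((LE3_lb c : ℕ) : ZMod q) v = w at e
  unfold LE3_cl
  rcases c with s | a
  · have e' : (LE3_lab v w).val = s.val := e
    rw [if_pos (by rw [e']; exact s.isLt), e']
    rfl
  · have : a.val < 3 := ZMod.val_lt a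
    have e' : (LE3_lab v w).val = m + a.val := e
    rw [if_neg (by omega), if_pos (by omega), e', Nat.add_sub_cancel_left,
      ZMod.natCast_zmod_val]
    rfl

lemma LE3_minDeg (hq : Odd q) (hm : m + 3 ≤ q) (c : Fin m ⊕ ZMod 3)
    (v : Option (ZMod q)) : ∃ w, (LE3_gr c).Adj v w :=
  ⟨_, LE3_adj_mate hq hm c v⟩

lemma LE3_cl_mem (v w : Option (ZMod q)) : ∃ c : Fin m ⊕ ZMod 3, LE3_cl m v w = LE3_em c := by
  unfold LE3_cl
  split_ifs with h1 h2
  · exact ⟨.inl ⟨_, h1⟩, rfl⟩
  · exact ⟨.inr _, rfl⟩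
  · exact ⟨.inr _, rfl⟩

lemma LE3_fact (hq : Odd q) (hm : m + 3 ≤ q) :
    IsFactorization (LE3_gr (q := q) (m := m)) := by
  apply IsFactorization.of_adj
  · rintro i j x y ⟨-, h1⟩ ⟨-, h2⟩
    exact LE3_em_inj (h1.symm.trans h2)
  · intro x y hxy
    obtain ⟨c, hc⟩ := LE3_cl_mem (m := m) x y
    exact ⟨c, hxy, hc⟩
  · exact LE3_minDeg hq hm

lemma LE3_left (hq : Odd q) (hm : m + 3 ≤ q) (s : Fin m) :
    q + 1 ≤ gammaT (LE3_gr (q := q) (m := m) (.inl s)) := by
  have key := card_le_gammaT (LE3_minDeg (q := q) hq hm (.inl s)) (fun x => x)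
    (LE3_mate ((LE3_lb (.inl s : Fin m ⊕ ZMod 3) : ℕ) : ZMod q)) (LE3_mate_inj hq _) ?_
  · simpa [ZMod.card] using key
  · rintro v w ⟨h1, h2⟩
    apply LE3_uniq hq h1
    unfold LE3_cl at h2
    split_ifs at h2 with h3 h4
    · simp only [LE3_em, Sum.inl.injEq] at h2
      simp only [LE3_lb]
      rw [← h2, ZMod.natCast_zmod_val]
    · simp [LE3_em] at h2
    · simp [LE3_em] at h2

lemma LE3_right (hq : Odd q) (hm : m + 3 ≤ q) (a : ZMod 3) :
    (q + 1) / 3 - 1 ≤ gammaT (LE3_gr (q := q) (m := m) (.inr a)) := by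
  have ha : a.val < 3 := ZMod.val_lt a
  have hlt : ∀ t : Fin ((q + 1) / 3 - 1), 3 * t.val + a.val < q := fun t => by
    have := t.isLt; omega
  have hval : ∀ t : Fin ((q + 1) / 3 - 1),
      (((3 * t.val + a.val : ℕ) : ZMod q)).val = 3 * t.val + a.val :=
    fun t => ZMod.val_natCast_of_lt (hlt t)
  have hbl : ∀ t : Fin ((q + 1) / 3 - 1),
      LE3_blk (some (((3 * t.val + a.val : ℕ) : ZMod q))) = a := by
    intro t
    unfold LE3_blk
    simp only
    rw [hval]
    push_cast
    have : (3 : ZMod 3) = 0 := by decide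
    rw [this, zero_mul, zero_add]
    exact ZMod.natCast_zmod_val a
  have key := card_le_gammaT (LE3_minDeg (q := q) hq hm (.inr a)) (α := Fin ((q + 1) / 3 - 1))
    (fun t => some (((3 * t.val + a.val : ℕ) : ZMod q)))
    (fun t => LE3_mate ((LE3_lb (.inr a : Fin m ⊕ ZMod 3) : ℕ) : ZMod q)
      (some (((3 * t.val + a.val : ℕ) : ZMod q)))) ?_ ?_
  · simpa using key
  · intro t t' h
    have h1 := LE3_mate_inj hq _ h
    simp only [Option.some.injEq] at h1
    have h2 := congrArg ZMod.val h1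
    rw [hval, hval] at h2
    exact Fin.ext (by omega)
  · rintro t w ⟨h1, h2⟩
    apply LE3_uniq hq h1
    unfold LE3_cl at h2
    split_ifs at h2 with h3 h4
    · simp [LE3_em] at h2
    · simp only [LE3_em, Sum.inr.injEq] at h2
      simp only [LE3_lb]
      have h5 : (LE3_lab (some (((3 * t.val + a.val : ℕ) : ZMod q))) w).val - m = a.val := by
        have h7 := congrArg ZMod.val h2
        rwa [ZMod.val_natCast_of_lt (by omega)] at h7
      have h6 : (LE3_lab (some (((3 * t.val + a.val : ℕ) : ZMod q))) w).val = m + a.val := by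
        omega
      rw [← h6, ZMod.natCast_zmod_val]
    · simp only [LE3_em, Sum.inr.injEq] at h2
      rw [hbl] at h2
      exact absurd h2 (third_ne _ _)

end LE3

theorem stmt_LE3 : Stmt_LE3 := by
  intro n k hn h3 hk
  obtain ⟨q, rfl⟩ : ∃ q, n = q + 1 := ⟨n - 1, by omega⟩
  have hq : Odd q := by
    rcases Nat.even_or_odd q with h | h
    · exact absurd hn (by simpa [Nat.even_add_one] using h)
    · exact h
  have hq0 : NeZero q := ⟨by omega⟩
  obtain ⟨m, rfl⟩ : ∃ m, k = m + 3 := ⟨k - 3, by omega⟩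
  have h1 := le_P (V := Option (ZMod q)) (ι := Fin m ⊕ ZMod 3) (n := q + 1) (k := m + 3)
    (by simp [ZMod.card]) (by simp [ZMod.card]) (LE3_fact hq (by omega))
  refine le_trans ?_ h1
  rw [Fintype.prod_sum_type, Nat.add_sub_cancel]
  apply Nat.mul_le_mul
  · calc (q + 1) ^ m = ∏ _s : Fin m, (q + 1) := by simp
      _ ≤ _ := Finset.prod_le_prod' fun s _ => LE3_left hq (by omega) s
  · calc ((q + 1) / 3 - 1) ^ 3 = ∏ _a : ZMod 3, ((q + 1) / 3 - 1) := by simp [ZMod.card]
      _ ≤ _ := Finset.prod_le_prod' fun a _ => LE3_right hq (by omega) a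

end Pool.Agent.Work.MP_1ce445_sm
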