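import Pool.Agent.Work.MP_1ce445_sm.Interface
import Pool.Agent.Work.MP_1ce445_co_56.Lower

/-!
Block LO3: the lower bound for odd `n`.
-/

namespace Pool.Agent.Work.MP_1ce445_sm

open Finset Pool.Agent.Work.MP_1ce445_co_56 Pool.Agent.Work.MP_1ce445_lin

/-- Unique neighbours except at one vertex (the lemma of the block GAM). -/
lemma LO3_sub_one {V : Type*} [Fintype V] [DecidableEq V] {G : SimpleGraph V}
    (hm : ∀ v, ∃ w, G.Adj v w) (x0 v : V)
    (hb : ∀ x y y', x ≠ x0 → G.Adj x y → G.Adj x y' → y = y')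
    (hc : ∀ y y', y ≠ v → y' ≠ v → G.Adj x0 y → G.Adj x0 y' → y = y') :
    Fintype.card V ≤ gammaT G + 1 := by
  obtain ⟨S, hS, hcard⟩ := exists_tds hm
  choose f hf using hm
  set W : Finset V := univ.filter (fun x => x ≠ x0 ∧ x ≠ v) with hW
  have h1 : W.image f ⊆ S := by
    intro y hy
    obtain ⟨x, hx, rfl⟩ := mem_image.1 hy
    obtain ⟨-, hx0, -⟩ := mem_filter.1 hx
    obtain ⟨w, hw, haw⟩ := hS x
    rw [hb x (f x) w hx0 (hf x) haw]
    exact hw
  have h2 : Set.InjOn f (W : Set V) := by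
    intro x hx x' hx' hxx
    obtain ⟨-, hx0, hxv⟩ := mem_filter.1 (mem_coe.1 hx)
    obtain ⟨-, hx0', hxv'⟩ := mem_filter.1 (mem_coe.1 hx')
    have h3 : G.Adj (f x) x := (hf x).symm
    have h4 : G.Adj (f x) x' := by
      rw [hxx]
      exact (hf x').symm
    by_cases h5 : f x = x0
    · rw [h5] at h3 h4
      exact hc _ _ hxv hxv' h3 h4
    · exact hb _ _ _ h5 h3 h4
  obtain ⟨y, hyS, hy⟩ := hS x0
  have h3 : y ∉ W.image f := by
    intro hyW
    obtain ⟨x, hx, hxy⟩ := mem_image.1 hyW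
    obtain ⟨-, hx0, -⟩ := mem_filter.1 hx
    have h4 : G.Adj y x := by
      rw [← hxy]
      exact (hf x).symm
    exact hx0 (hb y x x0 hy.ne' h4 hy.symm)
  have h4 : (insert y (W.image f)).card ≤ S.card :=
    card_le_card (insert_subset hyS h1)
  rw [card_insert_of_notMem h3, card_image_of_injOn h2, hcard] at h4
  have h5 : (univ : Finset V) ⊆ W ∪ {x0, v} := by
    intro x hx
    rw [mem_union, mem_insert, mem_singleton]
    by_cases h5 : x = x0
    · exact Or.inr (Or.inl h5)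
    by_cases h6 : x = v
    · exact Or.inr (Or.inr h6)
    · exact Or.inl (mem_filter.2 ⟨hx, h5, h6⟩)
  have h6 : ({x0, v} : Finset V).card ≤ 2 := card_le_two
  have h7 := (card_le_card h5).trans (card_union_le _ _)
  rw [card_univ] at h7
  omega

section LO3

set_option linter.unusedSectionVars false

variable {q : ℕ} [NeZero q] {m : ℕ}

/-- half of a residue, `q` odd -/
def LO3_half (i : ZMod q) : ZMod q := i * (((q + 1) / 2 : ℕ) : ZMod q)

lemma LO3_half_two (hq : Odd q) : (((q + 1) / 2 : ℕ) : ZMod q) + (((q + 1) / 2 : ℕ) : ZMod q) = 1 := by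
  obtain ⟨r, hr⟩ := hq
  have h2 : (q + 1) / 2 + (q + 1) / 2 = q + 1 := by omega
  rw [← Nat.cast_add, h2]
  simp

lemma LO3_half_add (hq : Odd q) (i : ZMod q) : LO3_half i + LO3_half i = i := by
  unfold LO3_half
  rw [← mul_add, LO3_half_two hq, mul_one]

lemma LO3_half_dbl (hq : Odd q) (z : ZMod q) : LO3_half (z + z) = z := by
  unfold LO3_half
  rw [add_mul, ← mul_add, LO3_half_two hq, mul_one]

lemma LO3_dbl (hq : Odd q) {x y : ZMod q} (h : x + x = y + y) : x = y := by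
  rw [← LO3_half_dbl hq x, h, LO3_half_dbl hq y]

/-- the index of a pair, `m + 3` if it has none -/
def LO3_ix (m : ℕ) (x y : ZMod q) : ℕ :=
  if (LO3_half (x + y)).val < m + 3 then (LO3_half (x + y)).val
  else if x.val < m + 3 ∧ y = x + ((2 * (m + 3) : ℕ) : ZMod q) then x.val
  else if y.val < m + 3 ∧ x = y + ((2 * (m + 3) : ℕ) : ZMod q) then y.val
  else m + 3

lemma LO3_val_add (hm : 5 * (m + 3) ≤ q) {x : ZMod q} (hx : x.val < m + 3) (c : ℕ)
    (hc : c ≤ 2 * (m + 3)) : (x + ((c : ℕ) : ZMod q)).val = x.val + c := by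
  rw [ZMod.val_add_of_lt]
  · rw [ZMod.val_natCast_of_lt (by omega)]
  · rw [ZMod.val_natCast_of_lt (by omega)]
    omega

lemma LO3_ix_symm (hm : 5 * (m + 3) ≤ q) (x y : ZMod q) : LO3_ix m x y = LO3_ix m y x := by
  unfold LO3_ix
  rw [add_comm y x]
  by_cases h1 : (LO3_half (x + y)).val < m + 3
  · rw [if_pos h1, if_pos h1]
  · rw [if_neg h1, if_neg h1]
    by_cases h2 : x.val < m + 3 ∧ y = x + ((2 * (m + 3) : ℕ) : ZMod q)
    · rw [if_pos h2]
      have h3 : ¬ (y.val < m + 3 ∧ x = y + ((2 * (m + 3) : ℕ) : ZMod q)) := by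
        rintro ⟨h4, -⟩
        have h5 := LO3_val_add hm h2.1 (2 * (m + 3)) le_rfl
        rw [← h2.2] at h5
        omega
      rw [if_neg h3, if_pos h2]
    · rw [if_neg h2]
      by_cases h3 : y.val < m + 3 ∧ x = y + ((2 * (m + 3) : ℕ) : ZMod q)
      · rw [if_pos h3, if_pos h3]
      · rw [if_neg h3, if_neg h3, if_neg h2]

lemma LO3_ne (hm : 5 * (m + 3) ≤ q) {i : ℕ} (hi : i < m + 3) :
    ((i : ℕ) : ZMod q) ≠ ((i : ℕ) : ZMod q) + ((2 * (m + 3) : ℕ) : ZMod q) := by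
  intro h
  have h1 : ((i : ℕ) : ZMod q).val = i := ZMod.val_natCast_of_lt (by omega)
  have h2 := LO3_val_add hm (x := ((i : ℕ) : ZMod q)) (by omega) (2 * (m + 3)) le_rfl
  rw [← h] at h2
  omega

/-- the partner of a vertex in the class `i` -/
def LO3_mate (m i : ℕ) (x : ZMod q) : ZMod q :=
  if x = ((i : ℕ) : ZMod q) then ((i : ℕ) : ZMod q) + ((2 * (m + 3) : ℕ) : ZMod q)
  else ((i : ℕ) : ZMod q) + ((i : ℕ) : ZMod q) - x

lemma LO3_mate_ne (hq : Odd q) (hm : 5 * (m + 3) ≤ q) {i : ℕ} (hi : i < m + 3) (x : ZMod q) :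
    x ≠ LO3_mate m i x := by
  unfold LO3_mate
  split_ifs with h
  · rw [h]
    exact LO3_ne hm hi
  · intro h1
    apply h
    apply LO3_dbl hq
    nth_rewrite 1 [h1]
    ring

lemma LO3_ix_mate (hq : Odd q) (hm : 5 * (m + 3) ≤ q) {i : ℕ} (hi : i < m + 3) (x : ZMod q) :
    LO3_ix m x (LO3_mate m i x) = i := by
  have hv : ((i : ℕ) : ZMod q).val = i := ZMod.val_natCast_of_lt (by omega)
  unfold LO3_ix LO3_mate
  by_cases h : x = ((i : ℕ) : ZMod q)
  · rw [if_pos h, h]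
    have h1 : ((i : ℕ) : ZMod q) + (((i : ℕ) : ZMod q) + ((2 * (m + 3) : ℕ) : ZMod q)) =
        (((i : ℕ) : ZMod q) + ((m + 3 : ℕ) : ZMod q)) +
          (((i : ℕ) : ZMod q) + ((m + 3 : ℕ) : ZMod q)) := by
      push_cast
      ring
    have h2 := LO3_val_add hm (x := ((i : ℕ) : ZMod q)) (by omega) (m + 3) (by omega)
    rw [h1, LO3_half_dbl hq, if_neg (by omega), if_pos ⟨by omega, rfl⟩, hv]
  · rw [if_neg h]
    have h1 : x + (((i : ℕ) : ZMod q) + ((i : ℕ) : ZMod q) - x) =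
        ((i : ℕ) : ZMod q) + ((i : ℕ) : ZMod q) := by ring
    rw [h1, LO3_half_dbl hq, hv, if_pos hi]

lemma LO3_uniq (hq : Odd q) (hm : 5 * (m + 3) ≤ q) {i : ℕ} (hi : i < m + 3) {x y : ZMod q}
    (hxy : x ≠ y) (h : LO3_ix m x y = i) :
    y = LO3_mate m i x ∨
      (y = ((i : ℕ) : ZMod q) ∧ x = ((i : ℕ) : ZMod q) + ((2 * (m + 3) : ℕ) : ZMod q)) := by
  unfold LO3_ix at h
  split_ifs at h with h1 h2 h3
  · left
    have h4 : LO3_half (x + y) = ((i : ℕ) : ZMod q) := by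
      rw [← h, ZMod.natCast_zmod_val]
    have h5 : x + y = ((i : ℕ) : ZMod q) + ((i : ℕ) : ZMod q) := by
      rw [← h4, LO3_half_add hq]
    unfold LO3_mate
    rw [if_neg]
    · rw [← h5]
      ring
    · intro h6
      apply hxy
      rw [h6] at h5 ⊢
      exact (add_left_cancel h5).symm
  · left
    have h4 : x = ((i : ℕ) : ZMod q) := by
      rw [← h, ZMod.natCast_zmod_val]
    unfold LO3_mate
    rw [if_pos h4, h2.2, h4]
  · right
    have h4 : y = ((i : ℕ) : ZMod q) := by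
      rw [← h, ZMod.natCast_zmod_val]
    refine ⟨h4, ?_⟩
    rw [h3.2, h4]
  · omega

/-- the class of a vertex -/
def LO3_blk (x : ZMod q) : ZMod 3 := (x.val : ZMod 3)

/-- the colouring -/
def LO3_cl (m : ℕ) (x y : ZMod q) : ℕ ⊕ ZMod 3 :=
  if LO3_ix m x y < m then .inl (LO3_ix m x y)
  else if LO3_ix m x y < m + 3 then .inr ((LO3_ix m x y - m : ℕ) : ZMod 3)
  else .inr (third (LO3_blk x) (LO3_blk y))

lemma LO3_cl_symm (hm : 5 * (m + 3) ≤ q) (x y : ZMod q) : LO3_cl m x y = LO3_cl m y x := by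
  unfold LO3_cl
  rw [LO3_ix_symm hm x y, third_comm]

/-- colour names -/
def LO3_em {m : ℕ} : Fin m ⊕ ZMod 3 → ℕ ⊕ ZMod 3
  | .inl s => .inl s.val
  | .inr a => .inr a

lemma LO3_em_inj : Function.Injective (LO3_em (m := m)) := by
  rintro (s | a) (t | b) h
  · simp only [LO3_em, Sum.inl.injEq] at h
    rw [Fin.ext h]
  · simp [LO3_em] at h
  · simp [LO3_em] at h
  · simp only [LO3_em, Sum.inr.injEq] at h
    rw [h]

/-- colour classes -/
def LO3_gr (hm : 5 * (m + 3) ≤ q) (c : Fin m ⊕ ZMod 3) : SimpleGraph (ZMod q) where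
  Adj x y := x ≠ y ∧ LO3_cl m x y = LO3_em c
  symm := ⟨fun x y h => ⟨h.1.symm, by rw [LO3_cl_symm hm]; exact h.2⟩⟩
  loopless := ⟨fun _ h => h.1 rfl⟩

/-- the index of the matching in the colour `c` -/
def LO3_lb {m : ℕ} : Fin m ⊕ ZMod 3 → ℕ
  | .inl s => s.val
  | .inr a => m + a.val

lemma LO3_lb_lt (c : Fin m ⊕ ZMod 3) : LO3_lb c < m + 3 := by
  rcases c with s | a
  · have := s.isLt
    simp only [LO3_lb]
    omega
  · have : a.val < 3 := ZMod.val_lt a
    simp only [LO3_lb]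
    omega

lemma LO3_adj_mate (hq : Odd q) (hm : 5 * (m + 3) ≤ q) (c : Fin m ⊕ ZMod 3) (x : ZMod q) :
    (LO3_gr hm c).Adj x (LO3_mate m (LO3_lb c) x) := by
  refine ⟨LO3_mate_ne hq hm (LO3_lb_lt c) x, ?_⟩
  have e := LO3_ix_mate hq hm (LO3_lb_lt c) x
  generalize LO3_mate m (LO3_lb c) x = w at e
  unfold LO3_cl
  rcases c with s | a
  · have e' : LO3_ix m x w = s.val := e
    rw [if_pos (by rw [e']; exact s.isLt), e']
    rfl
  · have : a.val < 3 := ZMod.val_lt a
    have e' : LO3_ix m x w = m + a.val := e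
    rw [if_neg (by omega), if_pos (by omega), e', Nat.add_sub_cancel_left,
      ZMod.natCast_zmod_val]
    rfl

lemma LO3_minDeg (hq : Odd q) (hm : 5 * (m + 3) ≤ q) (c : Fin m ⊕ ZMod 3)
    (x : ZMod q) : ∃ w, (LO3_gr hm c).Adj x w :=
  ⟨_, LO3_adj_mate hq hm c x⟩

lemma LO3_cl_mem (x y : ZMod q) : ∃ c : Fin m ⊕ ZMod 3, LO3_cl m x y = LO3_em c := by
  unfold LO3_cl
  split_ifs with h1 h2
  · exact ⟨.inl ⟨_, h1⟩, rfl⟩
  · exact ⟨.inr _, rfl⟩
  · exact ⟨.inr _, rfl⟩

lemma LO3_fact (hq : Odd q) (hm : 5 * (m + 3) ≤ q) :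
    IsFactorization (LO3_gr (q := q) (m := m) hm) := by
  apply IsFactorization.of_adj
  · rintro i j x y ⟨-, h1⟩ ⟨-, h2⟩
    exact LO3_em_inj (h1.symm.trans h2)
  · intro x y hxy
    obtain ⟨c, hc⟩ := LO3_cl_mem (m := m) x y
    exact ⟨c, hxy, hc⟩
  · exact LO3_minDeg hq hm

lemma LO3_left (hq : Odd q) (hm : 5 * (m + 3) ≤ q) (s : Fin m) :
    q - 1 ≤ gammaT (LO3_gr (q := q) hm (.inl s)) := by
  have hs : s.val < m + 3 := by have := s.isLt; omega
  have hix : ∀ x y : ZMod q, (LO3_gr hm (.inl s)).Adj x y → LO3_ix m x y = s.val := by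
    rintro x y ⟨h1, h2⟩
    unfold LO3_cl at h2
    split_ifs at h2 with h3 h4
    · simpa [LO3_em] using h2
    · simp [LO3_em] at h2
    · simp [LO3_em] at h2
  have key := LO3_sub_one (LO3_minDeg (q := q) hq hm (.inl s))
    (((s.val : ℕ) : ZMod q) + ((2 * (m + 3) : ℕ) : ZMod q)) ((s.val : ℕ) : ZMod q) ?_ ?_
  · rw [ZMod.card] at key
    omega
  · intro x y y' hx hy hy'
    rcases LO3_uniq hq hm hs hy.1 (hix _ _ hy) with h | h
    · rcases LO3_uniq hq hm hs hy'.1 (hix _ _ hy') with h' | h'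
      · rw [h, h']
      · exact absurd h'.2 hx
    · exact absurd h.2 hx
  · intro y y' hyv hyv' hy hy'
    rcases LO3_uniq hq hm hs hy.1 (hix _ _ hy) with h | h
    · rcases LO3_uniq hq hm hs hy'.1 (hix _ _ hy') with h' | h'
      · rw [h, h']
      · exact absurd h'.1 hyv'
    · exact absurd h.1 hyv

lemma LO3_right (hq : Odd q) (hm : 5 * (m + 3) ≤ q) (a : ZMod 3) :
    q / 3 - 2 ≤ gammaT (LO3_gr (q := q) (m := m) hm (.inr a)) := by
  classical
  have ha : a.val < 3 := ZMod.val_lt a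
  have hlt : ∀ t : Fin (q / 3), 3 * t.val + a.val < q := fun t => by
    have := t.isLt; omega
  have hval : ∀ t : Fin (q / 3),
      (((3 * t.val + a.val : ℕ) : ZMod q)).val = 3 * t.val + a.val :=
    fun t => ZMod.val_natCast_of_lt (hlt t)
  have hbl : ∀ t : Fin (q / 3), LO3_blk (((3 * t.val + a.val : ℕ) : ZMod q)) = a := by
    intro t
    unfold LO3_blk
    rw [hval]
    push_cast
    have : (3 : ZMod 3) = 0 := by decide
    rw [this, zero_mul, zero_add]
    exact ZMod.natCast_zmod_val a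
  set S : Finset (ZMod q) :=
    univ.image (fun t : Fin (q / 3) => ((3 * t.val + a.val : ℕ) : ZMod q)) with hS
  have hSc : S.card = q / 3 := by
    rw [hS, card_image_of_injective, card_univ, Fintype.card_fin]
    intro t t' h
    have h2 := congrArg ZMod.val h
    simp only [hval] at h2
    exact Fin.ext (by omega)
  have hSb : ∀ x ∈ S, LO3_blk x = a := by
    intro x hx
    obtain ⟨t, -, rfl⟩ := mem_image.1 hx
    exact hbl t
  set i : ℕ := m + a.val with hi
  have hi3 : i < m + 3 := by omega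
  set U : Finset (ZMod q) :=
    S \ {((i : ℕ) : ZMod q), ((i : ℕ) : ZMod q) + ((2 * (m + 3) : ℕ) : ZMod q)} with hU
  have hUc : q / 3 - 2 ≤ U.card := by
    have h1 : S.card - ({((i : ℕ) : ZMod q), ((i : ℕ) : ZMod q) + ((2 * (m + 3) : ℕ) : ZMod q)} :
        Finset (ZMod q)).card ≤ U.card := by
      rw [hU]
      exact le_card_sdiff _ _
    have h2 : ({((i : ℕ) : ZMod q), ((i : ℕ) : ZMod q) + ((2 * (m + 3) : ℕ) : ZMod q)} :
      Finset (ZMod q)).card ≤ 2 := card_le_two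
    rw [hSc] at h1
    omega
  have key := card_le_gammaT (LO3_minDeg (q := q) hq hm (.inr a)) (α := {x // x ∈ U})
    (fun x => x.1) (fun x => ((i : ℕ) : ZMod q) + ((i : ℕ) : ZMod q) - x.1) ?_ ?_
  · rw [Fintype.card_coe] at key
    omega
  · intro x x' h
    exact Subtype.ext (sub_right_injective h)
  · rintro ⟨x, hx⟩ w ⟨h1, h2⟩
    have hx' := mem_sdiff.1 hx
    have hxb := hSb x hx'.1
    have hx2 := hx'.2
    simp only [mem_insert, mem_singleton, not_or] at hx2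
    simp only at h1 h2 ⊢
    unfold LO3_cl at h2
    split_ifs at h2 with h3 h4
    · simp [LO3_em] at h2
    · simp only [LO3_em, Sum.inr.injEq] at h2
      have h5 : LO3_ix m x w - m = a.val := by
        have h7 := congrArg ZMod.val h2
        rwa [ZMod.val_natCast_of_lt (by omega)] at h7
      rcases LO3_uniq hq hm hi3 h1 (by omega) with h6 | h6
      · rw [h6]
        unfold LO3_mate
        rw [if_neg hx2.1]
      · exact absurd h6.2 hx2.2
    · simp only [LO3_em, Sum.inr.injEq] at h2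
      rw [hxb] at h2
      exact absurd h2 (third_ne _ _)

end LO3

theorem stmt_LO3 : Stmt_LO3 := by
  intro n k hn h3 hk
  have hq0 : NeZero n := ⟨by omega⟩
  obtain ⟨m, rfl⟩ : ∃ m, k = m + 3 := ⟨k - 3, by omega⟩
  have h1 := le_P (V := ZMod n) (ι := Fin m ⊕ ZMod 3) (n := n) (k := m + 3)
    (by simp [ZMod.card]) (by simp [ZMod.card]) (LO3_fact hn hk)
  refine le_trans ?_ h1
  rw [Fintype.prod_sum_type, Nat.add_sub_cancel]
  apply Nat.mul_le_mul
  · calc (n - 1) ^ m = ∏ _s : Fin m, (n - 1) := by simp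
      _ ≤ _ := Finset.prod_le_prod' fun s _ => LO3_left hn hk s
  · calc (n / 3 - 2) ^ 3 = ∏ _a : ZMod 3, (n / 3 - 2) := by simp [ZMod.card]
      _ ≤ _ := Finset.prod_le_prod' fun a _ => LO3_right hn hk a

end Pool.Agent.Work.MP_1ce445_sm
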