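import Pool.Agent.Work.MP_1ce445_sm.Interface

/-!
MP_1ce445_co, block LW3: the lower bound of THEOREM SM.
-/

namespace Pool.Agent.Work.MP_1ce445_sm

open Finset Pool.Agent.Work.MP_1ce445_co_56 Pool.Agent.Work.MP_1ce445_lin

theorem LW3_cube (N X ε : ℝ) (hN : 9 ≤ N) (hε : 1 ≤ ε * N) (hX : N / 3 - 3 ≤ X) :
    (1 / 27 - ε) * N ^ 3 ≤ X ^ 3 := by
  have h0 : 0 ≤ N / 3 - 3 := by linarith
  have h1 : (N / 3 - 3) ^ 3 ≤ X ^ 3 := pow_le_pow_left₀ h0 hX 3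
  have h2 : N ^ 2 ≤ ε * N * N ^ 2 := by
    have h3 : 0 ≤ N ^ 2 := by positivity
    nlinarith
  have h4 : (N / 3 - 3) ^ 3 = N ^ 3 / 27 - N ^ 2 + 9 * N - 27 := by ring
  have h5 : ε * N * N ^ 2 = ε * N ^ 3 := by ring
  rw [h5] at h2
  have h6 : (1 / 27 - ε) * N ^ 3 = N ^ 3 / 27 - ε * N ^ 3 := by ring
  rw [h6]
  linarith

theorem LW3_fin (N X ε p : ℝ) (k : ℕ) (hk : 3 ≤ k) (hN : 9 ≤ N) (hε : 1 ≤ ε * N)
    (hX : N / 3 - 3 ≤ X) (hp : N ^ (k - 3) * X ^ 3 ≤ p) :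
    (1 / 27 - ε) * N ^ k ≤ p := by
  have h1 := LW3_cube N X ε hN hε hX
  have h2 : N ^ k = N ^ (k - 3) * N ^ 3 := by
    rw [← pow_add]
    have h3 : k - 3 + 3 = k := by omega
    rw [h3]
  have h4 : 0 ≤ N ^ (k - 3) := pow_nonneg (by linarith) _
  calc (1 / 27 - ε) * N ^ k = N ^ (k - 3) * ((1 / 27 - ε) * N ^ 3) := by rw [h2]; ring
    _ ≤ N ^ (k - 3) * X ^ 3 := mul_le_mul_of_nonneg_left h1 h4
    _ ≤ p := hp

/-- Block LW3. -/
theorem stmt_LW3 (h1 : Stmt_LE3) (h2 : Stmt_LO3) : Stmt_LW3 := by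
  intro ε hε
  obtain ⟨m, hm⟩ := exists_nat_ge (1 / ε)
  refine ⟨m + 100, fun n k hn hk hkn => ?_⟩
  have hm' : 1 ≤ ε * m := by
    have := (div_le_iff₀ hε).1 hm
    linarith
  have hn100 : 100 ≤ n := by omega
  have hn' : (100 : ℝ) ≤ n := by exact_mod_cast hn100
  have hnm : (m : ℝ) + 100 ≤ n := by exact_mod_cast hn
  have hkn' : 36 * k ≤ n := by
    have : (36 : ℝ) * k ≤ n := by linarith
    exact_mod_cast this
  have h3 : n ≤ 3 * (n / 3) + 2 := by omega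
  have h3' : (n : ℝ) ≤ 3 * ((n / 3 : ℕ) : ℝ) + 2 := by exact_mod_cast h3
  rcases Nat.even_or_odd n with he | ho
  · have hNN : NN n = n := by
      obtain ⟨r, hr⟩ := he
      unfold NN
      omega
    rw [hNN]
    have h4 := h1 n k he hk (by omega)
    have h5 : ((n / 3 - 1 : ℕ) : ℝ) = ((n / 3 : ℕ) : ℝ) - 1 := by
      rw [Nat.cast_sub (by omega)]
      norm_num
    have h6 : (n : ℝ) ^ (k - 3) * (((n / 3 : ℕ) : ℝ) - 1) ^ 3 ≤ (P n k : ℝ) := by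
      rw [← h5]
      exact_mod_cast h4
    refine LW3_fin n _ ε _ k hk (by linarith) ?_ (by linarith) h6
    nlinarith
  · have hNN : ((NN n : ℕ) : ℝ) = (n : ℝ) - 1 := by
      obtain ⟨r, hr⟩ := ho
      have h4 : NN n + 1 = n := by
        unfold NN
        omega
      have h5 : ((NN n : ℕ) : ℝ) + 1 = n := by exact_mod_cast h4
      linarith
    rw [hNN]
    have h4 := h2 n k ho hk (by omega)
    have h5 : ((n / 3 - 2 : ℕ) : ℝ) = ((n / 3 : ℕ) : ℝ) - 2 := by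
      rw [Nat.cast_sub (by omega)]
      norm_num
    have h5' : ((n - 1 : ℕ) : ℝ) = (n : ℝ) - 1 := by
      rw [Nat.cast_sub (by omega)]
      norm_num
    have h6 : ((n : ℝ) - 1) ^ (k - 3) * (((n / 3 : ℕ) : ℝ) - 2) ^ 3 ≤ (P n k : ℝ) := by
      rw [← h5, ← h5']
      exact_mod_cast h4
    refine LW3_fin _ _ ε _ k hk (by linarith) ?_ (by linarith) h6
    nlinarith

end Pool.Agent.Work.MP_1ce445_sm
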