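import Pool.Agent.Work.MP_1ce445_sm.Interface

set_option autoImplicit false

namespace Pool.Agent.Work.MP_1ce445_sm

open Finset Pool.Agent.Work.MP_1ce445_co_56 Pool.Agent.Work.MP_1ce445_lin

lemma SMA_meet {V : Type} [Fintype V] {k : ℕ} {M : Finset (Fin k)} {T : V → Finset (Fin k)}
    {c : ℝ} (hS : Sm M T c) {a b : Fin k} (h : c * Fintype.card V < nex T a b) (w : V) :
    a ∈ T w ∨ b ∈ T w := by
  by_contra hn
  rw [not_or] at hn
  obtain ⟨ha, hb⟩ := hn
  have h1 : univ.filter (fun v => T v = {a, b}) ⊆ univ.filter (fun v => T w ∩ T v = ∅) := by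
    intro v hv
    rw [mem_filter] at hv ⊢
    refine ⟨hv.1, ?_⟩
    rw [hv.2]
    ext x
    simp only [mem_inter, mem_insert, mem_singleton, notMem_empty, iff_false]
    rintro ⟨hx, rfl | rfl⟩
    · exact ha hx
    · exact hb hx
  have h2 : (nex T a b : ℝ) ≤ ((univ.filter (fun v => T w ∩ T v = ∅)).card : ℝ) := by
    unfold nex
    exact_mod_cast card_le_card h1
  exact absurd (h.trans_le (h2.trans (hS.few w))) (lt_irrefl _)

lemma SMA_comm {V : Type} [Fintype V] {k : ℕ} (T : V → Finset (Fin k)) (a b : Fin k) :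
    nex T a b = nex T b a := by
  unfold nex
  rw [Finset.pair_comm a b]

lemma SMA_case (hTRI : Stmt_TRI) (hCII : Stmt_CII) {V : Type} [Fintype V] {k : ℕ}
    (M : Finset (Fin k)) (T : V → Finset (Fin k)) (c : ℝ) (hS : Sm M T c)
    (hJ : ∀ a, (Ja T a).card ≤ 2) (a b : Fin k) (hab : a ≠ b)
    (h : c * Fintype.card V < nex T a b)
    (hb : c * Fintype.card V < ((univ.filter (fun v => (T v).card = 2 ∧ b ∉ T v)).card : ℝ)) :
    ∏ x ∈ M, (1 - pr T x) ≤ 1 / 27 := by
  have hN : (0 : ℝ) ≤ c * Fintype.card V := mul_nonneg hS.cl (Nat.cast_nonneg _)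
  have hbJ : b ∈ Ja T a := by
    unfold Ja
    rw [mem_filter]
    refine ⟨mem_univ _, hab.symm, ?_⟩
    have : (0 : ℝ) < nex T a b := hN.trans_lt h
    exact_mod_cast this
  -- the shape of the 2-sets without `b`
  have hsh : ∀ v, (T v).card = 2 → b ∉ T v → ∃ j, j ≠ a ∧ j ≠ b ∧ T v = {a, j} ∧ j ∈ Ja T a := by
    intro v hv hbv
    have hav : a ∈ T v := (SMA_meet hS h v).resolve_right hbv
    obtain ⟨x, y, hxy, hT⟩ := card_eq_two.1 hv
    have hex : ∃ j, j ≠ a ∧ T v = {a, j} := by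
      rw [hT] at hav
      rw [mem_insert, mem_singleton] at hav
      rcases hav with e | e
      · exact ⟨y, by rw [e]; exact hxy.symm, by rw [hT, e]⟩
      · exact ⟨x, by rw [e]; exact hxy, by rw [hT, e, Finset.pair_comm]⟩
    obtain ⟨j, hja, hTj⟩ := hex
    have hjT : j ∈ T v := by
      rw [hTj]
      simp
    refine ⟨j, hja, fun e => hbv (e ▸ hjT), hTj, ?_⟩
    unfold Ja
    rw [mem_filter]
    refine ⟨mem_univ _, hja, ?_⟩
    unfold nex
    exact card_pos.2 ⟨v, by rw [mem_filter]; exact ⟨mem_univ _, hTj⟩⟩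
  have hne : (univ.filter (fun v => (T v).card = 2 ∧ b ∉ T v)).Nonempty := by
    rw [← card_pos]
    have : (0 : ℝ) < ((univ.filter (fun v => (T v).card = 2 ∧ b ∉ T v)).card : ℝ) :=
      hN.trans_lt hb
    exact_mod_cast this
  obtain ⟨v0, hv0⟩ := hne
  rw [mem_filter] at hv0
  obtain ⟨d, hda, hdb, hTd, hdJ⟩ := hsh v0 hv0.2.1 hv0.2.2
  have hJe : Ja T a = {b, d} := by
    symm
    apply eq_of_subset_of_card_le
    · intro x hx
      rw [mem_insert, mem_singleton] at hx
      rcases hx with rfl | rfl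
      · exact hbJ
      · exact hdJ
    · rw [card_pair hdb.symm]
      exact hJ a
  have hsub : univ.filter (fun v => (T v).card = 2 ∧ b ∉ T v) ⊆
      univ.filter (fun v => T v = {a, d}) := by
    intro v hv
    rw [mem_filter] at hv ⊢
    obtain ⟨j, hja, hjb, hTj, hjJ⟩ := hsh v hv.2.1 hv.2.2
    rw [hJe, mem_insert, mem_singleton] at hjJ
    rcases hjJ with e | e
    · exact absurd e hjb
    · exact ⟨mem_univ _, by rw [hTj, e]⟩
  have hd : c * Fintype.card V < nex T a d := by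
    refine hb.trans_le ?_
    unfold nex
    exact_mod_cast card_le_card hsub
  by_cases hbd : c * Fintype.card V < nex T b d
  · exact hTRI M T c hS a b d hab hda.symm hdb.symm h hd hbd
  · exact hCII M T c hS a b d hab hda.symm hdb.symm h hd (not_lt.1 hbd) hJe.subset

theorem stmt_SMA (hSTR : Stmt_STR) (hTRI : Stmt_TRI) (hFEW : Stmt_FEW) (hHEA : Stmt_HEA)
    (hCI : Stmt_CI) (hCII : Stmt_CII) : Stmt_SMA := by
  intro V _ k M T c hS
  by_cases hst : ∃ a, 3 ≤ (Ja T a).card
  · obtain ⟨a, ha⟩ := hst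
    exact hSTR M T c hS a ha
  have hJ : ∀ a, (Ja T a).card ≤ 2 := by
    intro a
    by_contra hn
    exact hst ⟨a, by omega⟩
  by_cases hf : ((univ.filter (fun v => (T v).card = 2)).card : ℝ) ≤ 3 / 10 * Fintype.card V
  · exact hFEW M T c hS hf
  obtain ⟨a, b, hab, h⟩ := hHEA M T c hS hJ (not_le.1 hf)
  by_cases hb : ((univ.filter (fun v => (T v).card = 2 ∧ b ∉ T v)).card : ℝ) ≤
      c * Fintype.card V
  · by_cases ha : ((univ.filter (fun v => (T v).card = 2 ∧ a ∉ T v)).card : ℝ) ≤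
        c * Fintype.card V
    · exact hCI M T c hS a b hab h hb ha
    · exact SMA_case hTRI hCII M T c hS hJ b a hab.symm (by rw [SMA_comm]; exact h)
        (not_le.1 ha)
  · exact SMA_case hTRI hCII M T c hS hJ a b hab h (not_le.1 hb)

end Pool.Agent.Work.MP_1ce445_sm
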