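import Pool.Agent.Work.MP_1ce445_sm.Interface

/-!
# Block STB of theorem SM: a real inequality
-/

namespace Pool.Agent.Work.MP_1ce445_sm

open Finset Pool.Agent.Work.MP_1ce445_co_56 Pool.Agent.Work.MP_1ce445_lin

theorem STB_le_exp (B x : ℝ) (hB : 0 < B) : x ≤ Real.exp (B * x - 1 - Real.log B) := by
  have h := Real.add_one_le_exp (B * x - 1)
  rw [Real.exp_sub, Real.exp_log hB, le_div_iff₀ hB]
  linarith

theorem STB_prod {ι : Type} (J : Finset ι) (e : ι → ℝ) (b' B : ℝ) (hB : 0 < B)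
    (hJ : 3 ≤ J.card) (hx : ∀ j ∈ J, 0 ≤ 1 - b' - e j)
    (hA : 0 ≤ Real.log B + 1 - B * (1 - b')) :
    ∏ j ∈ J, (1 - b' - e j) ≤
      Real.exp (-(3 * (Real.log B + 1 - B * (1 - b'))) - B * ∑ j ∈ J, e j) := by
  calc ∏ j ∈ J, (1 - b' - e j)
      ≤ ∏ j ∈ J, Real.exp (B * (1 - b' - e j) - 1 - Real.log B) :=
        Finset.prod_le_prod hx fun j _ => STB_le_exp B _ hB
    _ = Real.exp (∑ j ∈ J, (B * (1 - b' - e j) - 1 - Real.log B)) := (Real.exp_sum _ _).symm
    _ ≤ _ := by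
        apply Real.exp_le_exp.2
        have h1 : ∑ j ∈ J, (B * (1 - b' - e j) - 1 - Real.log B) =
            (J.card : ℝ) * (B * (1 - b') - 1 - Real.log B) - B * ∑ j ∈ J, e j := by
          rw [Finset.mul_sum, ← nsmul_eq_mul, ← Finset.sum_const, ← Finset.sum_sub_distrib]
          exact Finset.sum_congr rfl fun j _ => by ring
        rw [h1]
        have h3 : (3 : ℝ) ≤ J.card := by exact_mod_cast hJ
        nlinarith [mul_nonneg (sub_nonneg.2 h3) hA]

theorem STB_key {ι : Type} (J : Finset ι) (e : ι → ℝ) (b b' B : ℝ) (hB : 0 < B) (hB2 : B ≤ 2)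
    (hJ : 3 ≤ J.card) (hb : 0 ≤ b) (hE : ∑ j ∈ J, e j ≤ 1 - b)
    (hx : ∀ j ∈ J, 0 ≤ 1 - b' - e j)
    (hA : 0 ≤ Real.log B + 1 - B * (1 - b')) :
    b * Real.exp (-(2 * (1 - b - ∑ j ∈ J, e j))) * ∏ j ∈ J, (1 - b' - e j) ≤
      b * Real.exp (-(B * (1 - b)) - 3 * (Real.log B + 1 - B * (1 - b'))) := by
  have h1 := STB_prod J e b' B hB hJ hx hA
  calc b * Real.exp (-(2 * (1 - b - ∑ j ∈ J, e j))) * ∏ j ∈ J, (1 - b' - e j)
      ≤ b * Real.exp (-(2 * (1 - b - ∑ j ∈ J, e j))) *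
        Real.exp (-(3 * (Real.log B + 1 - B * (1 - b'))) - B * ∑ j ∈ J, e j) :=
        mul_le_mul_of_nonneg_left h1 (mul_nonneg hb (Real.exp_pos _).le)
    _ = b * Real.exp (-(2 * (1 - b - ∑ j ∈ J, e j)) +
        (-(3 * (Real.log B + 1 - B * (1 - b'))) - B * ∑ j ∈ J, e j)) := by
        rw [Real.exp_add]; ring
    _ ≤ _ := by
        apply mul_le_mul_of_nonneg_left _ hb
        apply Real.exp_le_exp.2
        nlinarith [mul_nonneg (sub_nonneg.2 hB2) (sub_nonneg.2 hE)]

theorem STB_mono (b b0 m : ℝ) (hb0 : 0 < b0) (hb : b ≤ b0) (hm : m * b0 ≤ 1) :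
    b * Real.exp (-(m * b)) ≤ b0 * Real.exp (-(m * b0)) := by
  have h1 : b ≤ b0 * Real.exp (b / b0 - 1) := by
    have h := Real.add_one_le_exp (b / b0 - 1)
    have h2 : b / b0 ≤ Real.exp (b / b0 - 1) := by linarith
    have h3 := mul_le_mul_of_nonneg_left h2 hb0.le
    rwa [mul_div_cancel₀ _ hb0.ne'] at h3
  calc b * Real.exp (-(m * b)) ≤ b0 * Real.exp (b / b0 - 1) * Real.exp (-(m * b)) :=
        mul_le_mul_of_nonneg_right h1 (Real.exp_pos _).le
    _ = b0 * Real.exp (b / b0 - 1 + -(m * b)) := by rw [Real.exp_add]; ring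
    _ ≤ _ := by
        apply mul_le_mul_of_nonneg_left _ hb0.le
        apply Real.exp_le_exp.2
        have h4 : b / b0 - 1 + -(m * b) = (b / b0) * (1 - m * b0) - 1 := by
          field_simp
          ring
        have h5 : b / b0 ≤ 1 := (div_le_one hb0).2 hb
        rw [h4]
        nlinarith [mul_nonneg (sub_nonneg.2 h5) (sub_nonneg.2 hm)]

theorem STB_exp1 : (3105 / 1000 : ℝ) ≤ Real.exp (1146 / 1000) := by
  have h1 := Real.exp_one_gt_d9
  have h2 := Real.quadratic_le_exp_of_nonneg (x := (146 / 1000 : ℝ)) (by norm_num)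
  have h3 : Real.exp (1146 / 1000 : ℝ) = Real.exp 1 * Real.exp (146 / 1000) := by
    rw [← Real.exp_add]; norm_num
  rw [h3]
  norm_num at h2
  nlinarith [Real.exp_pos (1 : ℝ)]

theorem STB_exp2 : (8 / 5 : ℝ) ≤ Real.exp (474 / 1000) := by
  have h2 := Real.quadratic_le_exp_of_nonneg (x := (237 / 1000 : ℝ)) (by norm_num)
  have h3 : Real.exp (474 / 1000 : ℝ) = Real.exp (237 / 1000) * Real.exp (237 / 1000) := by
    rw [← Real.exp_add]; norm_num
  rw [h3]
  norm_num at h2
  nlinarith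

theorem STB_exp3 : Real.exp (168 / 1000) ≤ 32 / 27 := by
  have h := Real.exp_bound' (x := (168 / 1000 : ℝ)) (by norm_num) (by norm_num) (n := 3)
    (by norm_num)
  simp only [Finset.sum_range_succ, Finset.sum_range_zero, Nat.factorial] at h
  norm_num at h
  linarith

theorem stmt_STB : Stmt_STB := by
  intro ι J e b c hJ hc0 hc hb0 hb1 he hE hx
  have hb'0 : 0 ≤ max 0 (b - c) := le_max_left _ _
  have hb'1 : b - c ≤ max 0 (b - c) := le_max_right _ _
  set b' := max 0 (b - c) with hb'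
  rcases le_total b (23 / 200) with h1 | h1
  · -- `B = 1`
    have hA : 0 ≤ Real.log 1 + 1 - 1 * (1 - b') := by
      rw [Real.log_one]; linarith
    refine (STB_key J e b b' 1 one_pos one_le_two hJ hb0 hE hx hA).trans ?_
    have h2 : b * Real.exp (-(1 * (1 - b)) - 3 * (Real.log 1 + 1 - 1 * (1 - b'))) ≤
        b * Real.exp (-(2 * b)) * Real.exp (-(916 / 1000)) := by
      rw [mul_assoc, ← Real.exp_add]
      apply mul_le_mul_of_nonneg_left _ hb0
      apply Real.exp_le_exp.2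
      rw [Real.log_one]
      linarith
    have h3 := STB_mono b (23 / 200) 2 (by norm_num) h1 (by norm_num)
    have h4 : b * Real.exp (-(2 * b)) * Real.exp (-(916 / 1000)) ≤
        23 / 200 * Real.exp (-(2 * (23 / 200))) * Real.exp (-(916 / 1000)) :=
      mul_le_mul_of_nonneg_right h3 (Real.exp_pos _).le
    have h5 : (23 / 200 : ℝ) * Real.exp (-(2 * (23 / 200))) * Real.exp (-(916 / 1000)) =
        23 / 200 * (Real.exp (1146 / 1000))⁻¹ := by
      rw [mul_assoc, ← Real.exp_add, ← Real.exp_neg]; norm_num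
    have h6 : (Real.exp (1146 / 1000))⁻¹ ≤ (3105 / 1000 : ℝ)⁻¹ :=
      inv_anti₀ (by norm_num) STB_exp1
    have h7 : (23 / 200 : ℝ) * (Real.exp (1146 / 1000))⁻¹ ≤ 1 / 27 := by
      calc (23 / 200 : ℝ) * (Real.exp (1146 / 1000))⁻¹ ≤ 23 / 200 * (3105 / 1000 : ℝ)⁻¹ :=
            mul_le_mul_of_nonneg_left h6 (by norm_num)
        _ ≤ 1 / 27 := by norm_num
    linarith
  rcases le_total b (1 / 5) with h2 | h2
  · -- `B = 3 / 2`
    have hlog : Real.log (3 / 2) = -Real.log (2 / 3) := by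
      rw [← Real.log_inv]; norm_num
    have hl : (1 / 3 + 5 / 81 : ℝ) ≤ Real.log (3 / 2) := by
      have h3 : Real.exp (32 / 81) ≤ 3 / 2 := by
        have h := Real.exp_bound' (x := (32 / 81 : ℝ)) (by norm_num) (by norm_num) (n := 3)
          (by norm_num)
        simp only [Finset.sum_range_succ, Finset.sum_range_zero, Nat.factorial] at h
        norm_num at h
        linarith
      rw [Real.le_log_iff_exp_le (by norm_num)]
      convert h3 using 2
      norm_num
    have hA : 0 ≤ Real.log (3 / 2) + 1 - 3 / 2 * (1 - b') := by linarith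
    refine (STB_key J e b b' (3 / 2) (by norm_num) (by norm_num) hJ hb0 hE hx hA).trans ?_
    have h3 : b * Real.exp (-(3 / 2 * (1 - b)) - 3 * (Real.log (3 / 2) + 1 - 3 / 2 * (1 - b'))) ≤
        b * Real.exp (-(3 * b)) * (Real.exp (126 / 1000) * (8 / 27)) := by
      have h4 : (8 / 27 : ℝ) = Real.exp (-(3 * Real.log (3 / 2))) := by
        have : -(3 * Real.log (3 / 2)) = ((3 : ℕ) : ℝ) * Real.log (2 / 3) := by
          rw [hlog]; push_cast; ring
        rw [this, Real.exp_nat_mul, Real.exp_log (by norm_num)]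
        norm_num
      rw [h4, mul_assoc, ← Real.exp_add, ← Real.exp_add]
      apply mul_le_mul_of_nonneg_left _ hb0
      apply Real.exp_le_exp.2
      linarith
    have h5 := STB_mono b (1 / 5) 3 (by norm_num) h2 (by norm_num)
    have h6 : b * Real.exp (-(3 * b)) * (Real.exp (126 / 1000) * (8 / 27)) ≤
        1 / 5 * Real.exp (-(3 * (1 / 5))) * (Real.exp (126 / 1000) * (8 / 27)) :=
      mul_le_mul_of_nonneg_right h5 (by positivity)
    have h7 : 1 / 5 * Real.exp (-(3 * (1 / 5))) * (Real.exp (126 / 1000) * (8 / 27)) =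
        8 / 135 * (Real.exp (474 / 1000))⁻¹ := by
      have : Real.exp (-(3 * (1 / 5))) * Real.exp (126 / 1000) =
          (Real.exp (474 / 1000))⁻¹ := by
        rw [← Real.exp_add, ← Real.exp_neg]; norm_num
      rw [← this]; ring
    have h8 : (Real.exp (474 / 1000))⁻¹ ≤ (8 / 5 : ℝ)⁻¹ := inv_anti₀ (by norm_num) STB_exp2
    have h9 : (8 / 135 : ℝ) * (Real.exp (474 / 1000))⁻¹ ≤ 1 / 27 := by
      calc (8 / 135 : ℝ) * (Real.exp (474 / 1000))⁻¹ ≤ 8 / 135 * (8 / 5 : ℝ)⁻¹ :=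
            mul_le_mul_of_nonneg_left h8 (by norm_num)
        _ ≤ 1 / 27 := by norm_num
    linarith
  · -- `B = 2`
    have hl := Real.log_two_gt_d9
    have hA : 0 ≤ Real.log 2 + 1 - 2 * (1 - b') := by linarith
    refine (STB_key J e b b' 2 two_pos le_rfl hJ hb0 hE hx hA).trans ?_
    have h3 : b * Real.exp (-(2 * (1 - b)) - 3 * (Real.log 2 + 1 - 2 * (1 - b'))) ≤
        b * (Real.exp (-(4 * b - 1)) * (Real.exp (168 / 1000) * (1 / 8))) := by
      have h4 : (1 / 8 : ℝ) = Real.exp (-(3 * Real.log 2)) := by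
        have : -(3 * Real.log 2) = -(((3 : ℕ) : ℝ) * Real.log 2) := by push_cast; ring
        rw [this, Real.exp_neg, Real.exp_nat_mul, Real.exp_log (by norm_num)]
        norm_num
      rw [h4, ← Real.exp_add, ← Real.exp_add]
      apply mul_le_mul_of_nonneg_left _ hb0
      apply Real.exp_le_exp.2
      linarith
    have h5 : b * Real.exp (-(4 * b - 1)) ≤ 1 / 4 := by
      have h6 := Real.add_one_le_exp (4 * b - 1)
      have h7 : 4 * b ≤ Real.exp (4 * b - 1) := by linarith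
      rw [Real.exp_neg]
      have h8 := Real.exp_pos (4 * b - 1)
      rw [← div_eq_mul_inv, div_le_iff₀ h8]
      linarith
    have h9 : b * (Real.exp (-(4 * b - 1)) * (Real.exp (168 / 1000) * (1 / 8))) ≤
        1 / 4 * (32 / 27 * (1 / 8)) := by
      rw [← mul_assoc]
      apply mul_le_mul h5 _ (by positivity) (by norm_num)
      exact mul_le_mul_of_nonneg_right STB_exp3 (by norm_num)
    have h10 : (1 / 4 : ℝ) * (32 / 27 * (1 / 8)) = 1 / 27 := by norm_num
    linarith

end Pool.Agent.Work.MP_1ce445_sm
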