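import Pool.Agent.Work.MP_1ce445_sm.Interface

/-! # Block STR: a star with at least three 2-sets -/

namespace Pool.Agent.Work.MP_1ce445_sm

open Finset Pool.Agent.Work.MP_1ce445_co_56 Pool.Agent.Work.MP_1ce445_lin

theorem STR_three {V : Type} [Fintype V] {k : ℕ} (T : V → Finset (Fin k)) (a x : Fin k)
    (hxa : x ≠ a) :
    (univ.filter (fun v => a ∉ T v ∧ x ∈ T v)).card + nex T a x +
      (univ.filter (fun v => a ∈ T v ∧ x ∈ T v ∧ 3 ≤ (T v).card)).card ≤
      (univ.filter (fun v => x ∈ T v)).card := by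
  classical
  unfold nex
  rw [← Finset.card_union_of_disjoint, ← Finset.card_union_of_disjoint]
  · apply Finset.card_le_card
    intro v hv
    simp only [Finset.mem_union, Finset.mem_filter, Finset.mem_univ, true_and] at hv ⊢
    rcases hv with (h | h) | h
    · exact h.2
    · rw [h]; simp
    · exact h.2.1
  · rw [Finset.disjoint_left]
    intro v hv hv'
    simp only [Finset.mem_union, Finset.mem_filter, Finset.mem_univ, true_and] at hv hv'
    rcases hv with h | h
    · exact h.1 hv'.1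
    · have h3 := hv'.2.2
      rw [h, Finset.card_pair hxa.symm] at h3
      omega
  · rw [Finset.disjoint_left]
    intro v hv hv'
    simp only [Finset.mem_filter, Finset.mem_univ, true_and] at hv hv'
    apply hv.1
    rw [hv']
    simp

theorem STR_avoid {V : Type} [Fintype V] {k : ℕ} (T : V → Finset (Fin k)) (a x : Fin k) (v0 : V)
    (h : T v0 = {a, x}) :
    (univ.filter (fun v => a ∉ T v)).card ≤ (univ.filter (fun v => a ∉ T v ∧ x ∈ T v)).card +
      (univ.filter (fun w => T v0 ∩ T w = ∅)).card := by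
  classical
  refine le_trans (Finset.card_le_card ?_) (Finset.card_union_le _ _)
  intro v hv
  simp only [Finset.mem_union, Finset.mem_filter, Finset.mem_univ, true_and] at hv ⊢
  by_cases hx : x ∈ T v
  · exact Or.inl ⟨hv, hx⟩
  · right
    rw [h, ← Finset.disjoint_iff_inter_eq_empty, Finset.disjoint_left]
    intro y hy
    rw [Finset.mem_insert, Finset.mem_singleton] at hy
    rcases hy with rfl | rfl
    · exact hv
    · exact hx

theorem STR_pairs {V : Type} [Fintype V] {k : ℕ} (T : V → Finset (Fin k)) (a : Fin k) :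
    (univ.filter (fun v => a ∈ T v ∧ (T v).card = 2)).card = ∑ j ∈ Ja T a, nex T a j := by
  classical
  unfold nex
  rw [← Finset.card_biUnion]
  · congr 1
    ext v
    simp only [Finset.mem_filter, Finset.mem_univ, true_and, Finset.mem_biUnion]
    constructor
    · rintro ⟨ha, hc⟩
      obtain ⟨x, y, hxy, hT⟩ := Finset.card_eq_two.1 hc
      rw [hT, Finset.mem_insert, Finset.mem_singleton] at ha
      have key : ∀ j, j ≠ a → T v = {a, j} → j ∈ Ja T a := by
        intro j hj hTj
        unfold Ja nex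
        rw [Finset.mem_filter]
        refine ⟨Finset.mem_univ _, hj, Finset.card_pos.2 ⟨v, ?_⟩⟩
        rw [Finset.mem_filter]
        exact ⟨Finset.mem_univ _, hTj⟩
      rcases ha with rfl | rfl
      · exact ⟨y, key y hxy.symm hT, hT⟩
      · rw [Finset.pair_comm] at hT
        exact ⟨x, key x hxy hT, hT⟩
    · rintro ⟨j, hj, hT⟩
      have hja : j ≠ a := by
        unfold Ja at hj
        exact (Finset.mem_filter.1 hj).2.1
      rw [hT]
      exact ⟨by simp, Finset.card_pair hja.symm⟩
  · intro x hx y hy hxy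
    rw [Function.onFun, Finset.disjoint_left]
    intro v hv hv'
    simp only [Finset.mem_filter, Finset.mem_univ, true_and] at hv hv'
    apply hxy
    have hxa : x ≠ a := by
      have := Finset.mem_coe.1 hx
      unfold Ja at this
      exact (Finset.mem_filter.1 this).2.1
    have h1 : x ∈ ({a, y} : Finset (Fin k)) := by
      rw [← hv', hv]
      simp
    rw [Finset.mem_insert, Finset.mem_singleton] at h1
    rcases h1 with h1 | h1
    · exact absurd h1 hxa
    · exact h1

theorem STR_sum {V : Type} [Fintype V] {k : ℕ} (M : Finset (Fin k)) (T : V → Finset (Fin k))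
    (hT : ∀ v, T v ⊆ M) (a : Fin k) :
    2 * (univ.filter (fun v => a ∈ T v ∧ 3 ≤ (T v).card)).card ≤
      ∑ x ∈ M.erase a, (univ.filter (fun v => a ∈ T v ∧ x ∈ T v ∧ 3 ≤ (T v).card)).card := by
  classical
  simp_rw [Finset.card_filter]
  rw [Finset.sum_comm, Finset.mul_sum]
  apply Finset.sum_le_sum
  intro v _
  by_cases h : a ∈ T v ∧ 3 ≤ (T v).card
  · rw [if_pos h, ← Finset.card_filter]
    have h1 : (T v).erase a ⊆
        (M.erase a).filter (fun x => a ∈ T v ∧ x ∈ T v ∧ 3 ≤ (T v).card) := by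
      intro x hx
      rw [Finset.mem_erase] at hx
      rw [Finset.mem_filter, Finset.mem_erase]
      exact ⟨⟨hx.1, hT v hx.2⟩, h.1, hx.2, h.2⟩
    have h2 := Finset.card_le_card h1
    rw [Finset.card_erase_of_mem h.1] at h2
    have h3 := h.2
    omega
  · rw [if_neg h]
    simp

theorem STR_split {V : Type} [Fintype V] {k : ℕ} (T : V → Finset (Fin k))
    (hT : ∀ v, 2 ≤ (T v).card) (a : Fin k) :
    (univ.filter (fun v => a ∈ T v)).card =
      (univ.filter (fun v => a ∈ T v ∧ (T v).card = 2)).card +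
      (univ.filter (fun v => a ∈ T v ∧ 3 ≤ (T v).card)).card := by
  classical
  rw [← Finset.card_union_of_disjoint]
  · congr 1
    ext v
    simp only [Finset.mem_union, Finset.mem_filter, Finset.mem_univ, true_and]
    have h2 := hT v
    constructor
    · intro h
      rcases Nat.lt_or_ge 2 (T v).card with h3 | h3
      · exact Or.inr ⟨h, h3⟩
      · exact Or.inl ⟨h, le_antisymm h3 h2⟩
    · rintro (h | h)
      · exact h.1
      · exact h.1
  · rw [Finset.disjoint_left]
    intro v hv hv'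
    simp only [Finset.mem_filter, Finset.mem_univ, true_and] at hv hv'
    have h1 := hv.2
    have h2 := hv'.2
    omega

theorem STR_exp (X g : ℝ) (h0 : 0 ≤ X) (h1 : X ≤ 1) (hg : 0 ≤ g) : X - g ≤ X * Real.exp (-g) := by
  have h2 : 1 - g ≤ Real.exp (-g) := by
    have := Real.add_one_le_exp (-g)
    linarith
  have h3 : X * (1 - g) ≤ X * Real.exp (-g) := mul_le_mul_of_nonneg_left h2 h0
  have h4 : X * g ≤ 1 * g := mul_le_mul_of_nonneg_right h1 hg
  nlinarith

theorem stmt_STR (h1 : Stmt_STB) : Stmt_STR := by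
  classical
  intro V _ k M T c hS a hJ
  have hN : (0 : ℝ) < Fintype.card V := by exact_mod_cast hS.pos
  set N : ℝ := (Fintype.card V : ℝ) with hNdef
  have hpr : ∀ j, pr T j * N = ((univ.filter (fun v => j ∈ T v)).card : ℝ) := by
    intro j
    unfold pr
    rw [div_mul_cancel₀ _ hN.ne']
  have hp0 : ∀ j, 0 ≤ pr T j := by
    intro j
    unfold pr
    positivity
  have hp1 : ∀ j, pr T j ≤ 1 := by
    intro j
    have h2 : ((univ.filter (fun v => j ∈ T v)).card : ℝ) ≤ N := by
      rw [hNdef]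
      exact_mod_cast Finset.card_le_univ _
    rw [← hpr j] at h2
    exact le_of_mul_le_mul_right (by linarith) hN
  -- the notation
  obtain ⟨e, he⟩ : ∃ e : Fin k → ℝ, ∀ j, e j * N = (nex T a j : ℝ) :=
    ⟨fun j => (nex T a j : ℝ) / N, fun j => div_mul_cancel₀ _ hN.ne'⟩
  obtain ⟨g, hg⟩ : ∃ g : Fin k → ℝ, ∀ x, g x * N =
      ((univ.filter (fun v => a ∈ T v ∧ x ∈ T v ∧ 3 ≤ (T v).card)).card : ℝ) :=
    ⟨fun x => ((univ.filter (fun v => a ∈ T v ∧ x ∈ T v ∧ 3 ≤ (T v).card)).card : ℝ) / N,
      fun x => div_mul_cancel₀ _ hN.ne'⟩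
  have he0 : ∀ j, 0 ≤ e j := by
    intro j
    have h2 : (0 : ℝ) ≤ e j * N := by rw [he]; positivity
    by_contra h3
    push Not at h3
    nlinarith
  have hg0 : ∀ j, 0 ≤ g j := by
    intro j
    have h2 : (0 : ℝ) ≤ g j * N := by rw [hg]; positivity
    by_contra h3
    push Not at h3
    nlinarith
  obtain ⟨b, hb⟩ : ∃ b : ℝ, b = 1 - pr T a := ⟨_, rfl⟩
  have hb0 : 0 ≤ b := by rw [hb]; linarith [hp1 a]
  have hb1 : b ≤ 1 := by rw [hb]; linarith [hp0 a]
  have hbN : b * N = ((univ.filter (fun v => a ∉ T v)).card : ℝ) := by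
    have h2 := Finset.card_filter_add_card_filter_not (s := (univ : Finset V)) (fun v => a ∈ T v)
    rw [Finset.card_univ] at h2
    have h3 : ((univ.filter (fun v => a ∈ T v)).card : ℝ) +
        ((univ.filter (fun v => a ∉ T v)).card : ℝ) = N := by
      rw [hNdef]
      exact_mod_cast h2
    rw [← hpr a] at h3
    rw [hb]
    linarith
  have hJm : ∀ j ∈ Ja T a, j ≠ a ∧ ∃ v0, T v0 = {a, j} := by
    intro j hj
    unfold Ja nex at hj
    rw [Finset.mem_filter] at hj
    refine ⟨hj.2.1, ?_⟩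
    obtain ⟨v, hv⟩ := Finset.card_pos.1 hj.2.2
    exact ⟨v, (Finset.mem_filter.1 hv).2⟩
  -- the lower bound for the elements of J
  have hlow : ∀ j ∈ Ja T a, max 0 (b - c) + e j + g j ≤ pr T j := by
    intro j hj
    obtain ⟨hja, v0, hv0⟩ := hJm j hj
    have h2 := STR_three T a j hja
    have h3 := STR_avoid T a j v0 hv0
    have h4 := hS.few v0
    have h2' : ((univ.filter (fun v => a ∉ T v ∧ j ∈ T v)).card : ℝ) + (nex T a j : ℝ) +
      ((univ.filter (fun v => a ∈ T v ∧ j ∈ T v ∧ 3 ≤ (T v).card)).card : ℝ) ≤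
      ((univ.filter (fun v => j ∈ T v)).card : ℝ) := by exact_mod_cast h2
    have h3' : ((univ.filter (fun v => a ∉ T v)).card : ℝ) ≤
      ((univ.filter (fun v => a ∉ T v ∧ j ∈ T v)).card : ℝ) +
      ((univ.filter (fun w => T v0 ∩ T w = ∅)).card : ℝ) := by exact_mod_cast h3
    rw [← hpr j, ← he j, ← hg j] at h2'
    rw [← hbN] at h3'
    rw [← hNdef] at h4
    have h5 : (0 : ℝ) ≤ ((univ.filter (fun v => a ∉ T v ∧ j ∈ T v)).card : ℝ) := by positivity
    have h6 : max 0 (b - c) * N ≤ ((univ.filter (fun v => a ∉ T v ∧ j ∈ T v)).card : ℝ) := by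
      rcases le_total 0 (b - c) with h7 | h7
      · rw [max_eq_right h7]
        linarith
      · rw [max_eq_left h7]
        linarith
    have h8 : (max 0 (b - c) + e j + g j) * N ≤ pr T j * N := by linarith
    exact le_of_mul_le_mul_right h8 hN
  -- the lower bound for the other elements
  have hlow2 : ∀ x, g x ≤ pr T x := by
    intro x
    have h2 : (univ.filter (fun v => a ∈ T v ∧ x ∈ T v ∧ 3 ≤ (T v).card)).card ≤
        (univ.filter (fun v => x ∈ T v)).card := by
      apply Finset.card_le_card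
      intro v hv
      simp only [Finset.mem_filter, Finset.mem_univ, true_and] at hv ⊢
      exact hv.2.1
    have h3 : ((univ.filter (fun v => a ∈ T v ∧ x ∈ T v ∧ 3 ≤ (T v).card)).card : ℝ) ≤
        ((univ.filter (fun v => x ∈ T v)).card : ℝ) := by exact_mod_cast h2
    rw [← hg x, ← hpr x] at h3
    exact le_of_mul_le_mul_right h3 hN
  -- the sums
  have hsplit : pr T a * N = (∑ j ∈ Ja T a, e j) * N +
      ((univ.filter (fun v => a ∈ T v ∧ 3 ≤ (T v).card)).card : ℝ) := by
    have h2 := STR_split T hS.two a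
    rw [STR_pairs] at h2
    have h3 : ((univ.filter (fun v => a ∈ T v)).card : ℝ) = ∑ j ∈ Ja T a, (nex T a j : ℝ) +
      ((univ.filter (fun v => a ∈ T v ∧ 3 ≤ (T v).card)).card : ℝ) := by exact_mod_cast h2
    rw [hpr a, h3, Finset.sum_mul]
    congr 1
    exact Finset.sum_congr rfl fun j _ => (he j).symm
  have hE : ∑ j ∈ Ja T a, e j ≤ 1 - b := by
    have h2 : (0 : ℝ) ≤ ((univ.filter (fun v => a ∈ T v ∧ 3 ≤ (T v).card)).card : ℝ) := by
      positivity
    have h3 : (∑ j ∈ Ja T a, e j) * N ≤ (1 - b) * N := by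
      rw [hb]
      linarith
    exact le_of_mul_le_mul_right h3 hN
  have hG : 2 * (1 - b - ∑ j ∈ Ja T a, e j) ≤ ∑ x ∈ M.erase a, g x := by
    have h2 := STR_sum M T hS.sub a
    have h3 : 2 * ((univ.filter (fun v => a ∈ T v ∧ 3 ≤ (T v).card)).card : ℝ) ≤
        ∑ x ∈ M.erase a,
          ((univ.filter (fun v => a ∈ T v ∧ x ∈ T v ∧ 3 ≤ (T v).card)).card : ℝ) := by
      exact_mod_cast h2
    have h4 : ∑ x ∈ M.erase a,
        ((univ.filter (fun v => a ∈ T v ∧ x ∈ T v ∧ 3 ≤ (T v).card)).card : ℝ) =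
        (∑ x ∈ M.erase a, g x) * N := by
      rw [Finset.sum_mul]
      exact Finset.sum_congr rfl fun x _ => (hg x).symm
    rw [h4] at h3
    have h5 : (2 * (1 - b - ∑ j ∈ Ja T a, e j)) * N ≤ (∑ x ∈ M.erase a, g x) * N := by
      have h6 : 1 - b = pr T a := by rw [hb]; ring
      rw [h6]
      nlinarith
    exact le_of_mul_le_mul_right h5 hN
  -- the inequality
  have hfac : ∀ j ∈ Ja T a, 0 ≤ 1 - max 0 (b - c) - e j := by
    intro j hj
    linarith [hlow j hj, hp1 j, hg0 j]
  have hmain := h1 (Ja T a) e b c hJ hS.cl hS.cu hb0 hb1 (fun j _ => he0 j) hE hfac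
  refine le_trans ?_ hmain
  have haJ : (Ja T a).Nonempty := Finset.card_pos.1 (by omega)
  have hJM : Ja T a ⊆ M.erase a := by
    intro j hj
    obtain ⟨hja, v0, hv0⟩ := hJm j hj
    rw [Finset.mem_erase]
    refine ⟨hja, hS.sub v0 ?_⟩
    rw [hv0]
    simp
  have haM : a ∈ M := by
    obtain ⟨j, hj⟩ := haJ
    obtain ⟨-, v0, hv0⟩ := hJm j hj
    apply hS.sub v0
    rw [hv0]
    simp
  rw [← Finset.mul_prod_erase M _ haM, ← hb, mul_assoc]
  apply mul_le_mul_of_nonneg_left _ hb0
  have hmax : 0 ≤ max 0 (b - c) := le_max_left _ _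
  have hstep : ∏ x ∈ M.erase a, (1 - pr T x) ≤
      ∏ x ∈ M.erase a, ((if x ∈ Ja T a then 1 - max 0 (b - c) - e x else 1) *
        Real.exp (-(g x))) := by
    apply Finset.prod_le_prod
    · intro x _
      linarith [hp1 x]
    · intro x _
      by_cases hx : x ∈ Ja T a
      · rw [if_pos hx]
        refine le_trans ?_ (STR_exp _ (g x) (hfac x hx) ?_ (hg0 x))
        · linarith [hlow x hx]
        · linarith [he0 x]
      · rw [if_neg hx]
        refine le_trans ?_ (STR_exp 1 (g x) zero_le_one le_rfl (hg0 x))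
        linarith [hlow2 x]
  refine hstep.trans ?_
  rw [Finset.prod_mul_distrib, ← Real.exp_sum, Finset.sum_neg_distrib, mul_comm]
  have hY : ∏ x ∈ M.erase a, (if x ∈ Ja T a then 1 - max 0 (b - c) - e x else 1) =
      ∏ x ∈ Ja T a, (1 - max 0 (b - c) - e x) := by
    rw [← Finset.prod_filter]
    congr 1
    ext x
    rw [Finset.mem_filter]
    exact ⟨fun h => h.2, fun h => ⟨hJM h, h⟩⟩
  rw [hY]
  apply mul_le_mul_of_nonneg_right
  · apply Real.exp_le_exp.2
    linarith
  · exact Finset.prod_nonneg fun x hx => hfac x hx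

end Pool.Agent.Work.MP_1ce445_sm
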