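import Pool.Agent.Work.MP_1ce445_sm.Interface

/-! Block TRI (helper58): a heavy triangle. -/

namespace Pool.Agent.Work.MP_1ce445_sm

open Finset Pool.Agent.Work.MP_1ce445_co_56 Pool.Agent.Work.MP_1ce445_lin

theorem TRI_meet {V : Type} [Fintype V] {k : ℕ} {M : Finset (Fin k)} {T : V → Finset (Fin k)}
    {c : ℝ} (h : Sm M T c) {a b : Fin k} (hab : c * Fintype.card V < nex T a b) (w : V) :
    a ∈ T w ∨ b ∈ T w := by
  by_contra hn
  push Not at hn
  have h1 := h.few w
  have h2 : (nex T a b : ℝ) ≤ ((univ.filter (fun v => T w ∩ T v = ∅)).card : ℝ) := by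
    unfold nex
    refine Nat.cast_le.2 (Finset.card_le_card fun v hv => ?_)
    rw [mem_filter] at hv ⊢
    refine ⟨mem_univ _, ?_⟩
    rw [hv.2, Finset.eq_empty_iff_forall_notMem]
    intro x hx
    rw [mem_inter, mem_insert, mem_singleton] at hx
    rcases hx.2 with h3 | h3
    · exact hn.1 (h3 ▸ hx.1)
    · exact hn.2 (h3 ▸ hx.1)
  linarith

theorem TRI_pr {V : Type} [Fintype V] {k : ℕ} (T : V → Finset (Fin k))
    (hN : 0 < Fintype.card V) (x : Fin k) : 0 ≤ pr T x ∧ pr T x ≤ 1 := by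
  have hN' : (0 : ℝ) < Fintype.card V := Nat.cast_pos.2 hN
  refine ⟨div_nonneg (Nat.cast_nonneg _) hN'.le, ?_⟩
  rw [pr, div_le_one hN']
  exact Nat.cast_le.2 (Finset.card_le_univ _)

theorem TRI_amgm (X Y Z : ℝ) (hX : 0 ≤ X) (hY : 0 ≤ Y) (hZ : 0 ≤ Z) (h : X + Y + Z ≤ 1) :
    X * Y * Z ≤ 1 / 27 := by
  have hS : 0 ≤ X + Y + Z := by linarith
  have h0 : (X + Y + Z) ^ 3 ≤ 1 := pow_le_one₀ hS h
  have h1 := mul_nonneg hX (sq_nonneg (Y - Z))
  have h2 := mul_nonneg hY (sq_nonneg (Z - X))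
  have h3 := mul_nonneg hZ (sq_nonneg (X - Y))
  have h4 := mul_nonneg hS (add_nonneg (add_nonneg (sq_nonneg (X - Y)) (sq_nonneg (Y - Z)))
    (sq_nonneg (Z - X)))
  have h5 : (X + Y + Z) ^ 3 - 27 * (X * Y * Z) = (X + Y + Z) * ((X - Y) ^ 2 + (Y - Z) ^ 2 +
      (Z - X) ^ 2) / 2 + 3 * (X * (Y - Z) ^ 2 + Y * (Z - X) ^ 2 + Z * (X - Y) ^ 2) := by ring
  linarith

theorem stmt_TRI : Stmt_TRI := by
  intro V _ k M T c hS a b d hab had hbd h1 h2 h3
  have hN' : (0 : ℝ) < Fintype.card V := Nat.cast_pos.2 hS.pos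
  have hcount : 2 * Fintype.card V ≤ (univ.filter (fun v => a ∈ T v)).card +
      (univ.filter (fun v => b ∈ T v)).card + (univ.filter (fun v => d ∈ T v)).card := by
    rw [Finset.card_filter, Finset.card_filter, Finset.card_filter, ← Finset.sum_add_distrib,
      ← Finset.sum_add_distrib]
    calc 2 * Fintype.card V = ∑ _w : V, 2 := by
          rw [Finset.sum_const, Finset.card_univ, smul_eq_mul, mul_comm]
      _ ≤ _ := Finset.sum_le_sum fun w _ => by
          have e1 := TRI_meet hS h1 w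
          have e2 := TRI_meet hS h2 w
          have e3 := TRI_meet hS h3 w
          by_cases ha : a ∈ T w <;> by_cases hb : b ∈ T w <;> by_cases hd : d ∈ T w <;>
            simp_all
  have hsum : 2 ≤ pr T a + pr T b + pr T d := by
    unfold pr
    rw [← add_div, ← add_div, le_div_iff₀ hN']
    exact_mod_cast hcount
  obtain ⟨w, hw⟩ : ∃ w, T w = {a, b} := by
    have h4 : 0 < nex T a b := by
      by_contra hc
      have h5 : nex T a b = 0 := by omega
      rw [h5, Nat.cast_zero] at h1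
      exact absurd h1 (not_lt.2 (mul_nonneg hS.cl hN'.le))
    obtain ⟨w, hw⟩ := Finset.card_pos.1 h4
    exact ⟨w, (mem_filter.1 hw).2⟩
  obtain ⟨w', hw'⟩ : ∃ w, T w = {a, d} := by
    have h4 : 0 < nex T a d := by
      by_contra hc
      have h5 : nex T a d = 0 := by omega
      rw [h5, Nat.cast_zero] at h2
      exact absurd h2 (not_lt.2 (mul_nonneg hS.cl hN'.le))
    obtain ⟨w, hw⟩ := Finset.card_pos.1 h4
    exact ⟨w, (mem_filter.1 hw).2⟩
  have haM : a ∈ M := hS.sub w (by rw [hw]; simp)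
  have hbM : b ∈ M := hS.sub w (by rw [hw]; simp)
  have hdM : d ∈ M := hS.sub w' (by rw [hw']; simp)
  have hsub : ({a, b, d} : Finset (Fin k)) ⊆ M := by
    intro x hx
    simp only [mem_insert, mem_singleton] at hx
    rcases hx with rfl | rfl | rfl <;> assumption
  have hp := TRI_pr T hS.pos
  rw [← Finset.prod_sdiff hsub]
  have hA : ∏ x ∈ ({a, b, d} : Finset (Fin k)), (1 - pr T x) =
      (1 - pr T a) * (1 - pr T b) * (1 - pr T d) := by
    rw [Finset.prod_insert (by simp [hab, had]), Finset.prod_insert (by simp [hbd]),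
      Finset.prod_singleton, mul_assoc]
  have hA1 : (1 - pr T a) * (1 - pr T b) * (1 - pr T d) ≤ 1 / 27 :=
    TRI_amgm _ _ _ (by linarith [(hp a).2]) (by linarith [(hp b).2]) (by linarith [(hp d).2])
      (by linarith)
  have hA0 : 0 ≤ (1 - pr T a) * (1 - pr T b) * (1 - pr T d) :=
    mul_nonneg (mul_nonneg (by linarith [(hp a).2]) (by linarith [(hp b).2]))
      (by linarith [(hp d).2])
  have hB : ∏ x ∈ M \ {a, b, d}, (1 - pr T x) ≤ 1 :=
    Finset.prod_le_one (fun x _ => by linarith [(hp x).2]) (fun x _ => by linarith [(hp x).1])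
  rw [hA]
  calc (∏ x ∈ M \ {a, b, d}, (1 - pr T x)) * ((1 - pr T a) * (1 - pr T b) * (1 - pr T d))
      ≤ 1 * ((1 - pr T a) * (1 - pr T b) * (1 - pr T d)) := mul_le_mul_of_nonneg_right hB hA0
    _ ≤ 1 / 27 := by rw [one_mul]; exact hA1

end Pool.Agent.Work.MP_1ce445_sm
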