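import Pool.Agent.Work.MP_1ce445_lin.CORE
import Pool.Agent.Work.MP_1ce445_lin.TAN
import Pool.Agent.Work.MP_1ce445_sm.STB
import Pool.Agent.Work.MP_1ce445_sm.STR
import Pool.Agent.Work.MP_1ce445_sm.TRI
import Pool.Agent.Work.MP_1ce445_sm.FEW
import Pool.Agent.Work.MP_1ce445_sm.HEA
import Pool.Agent.Work.MP_1ce445_sm.CI
import Pool.Agent.Work.MP_1ce445_sm.CII
import Pool.Agent.Work.MP_1ce445_sm.SMA
import Pool.Agent.Work.MP_1ce445_sm.SMS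
import Pool.Agent.Work.MP_1ce445_sm.UP3
import Pool.Agent.Work.MP_1ce445_sm.LE3
import Pool.Agent.Work.MP_1ce445_sm.LO3
import Pool.Agent.Work.MP_1ce445_sm.LW3

/-!
The theorem on the range `3 ≤ k ≤ n/36`: all blocks together.
-/

namespace Pool.Agent.Work.MP_1ce445_sm

open Finset Pool.Agent.Work.MP_1ce445_co_56 Pool.Agent.Work.MP_1ce445_lin

theorem hUP3 : Stmt_UP3 :=
  stmt_UP3 stmt_CORE (stmt_SMS (stmt_SMA (stmt_STR stmt_STB) stmt_TRI (stmt_FEW stmt_TAN)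
    stmt_HEA stmt_CI stmt_CII))

theorem hLW3 : Stmt_LW3 := stmt_LW3 stmt_LE3 stmt_LO3

/-- The theorem. -/
theorem sm_final (ε : ℝ) (hε : 0 < ε) :
    ∃ n0 : ℕ, ∀ n k : ℕ, n0 ≤ n → 3 ≤ k → (k : ℝ) ≤ n / 36 →
      |(P n k : ℝ) / ((2 * (n / 2) : ℕ) : ℝ) ^ k - 1 / 27| ≤ ε := by
  obtain ⟨n1, h1⟩ := hUP3 ε hε
  obtain ⟨n2, h2⟩ := hLW3 ε hε
  refine ⟨max (max n1 n2) 2, fun n k hn hk hkn => ?_⟩
  have a := h1 n k (by omega) hkn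
  have b := h2 n k (by omega) hk hkn
  have hN : 0 < 2 * (n / 2) := by omega
  have hN' : (0 : ℝ) < ((2 * (n / 2) : ℕ) : ℝ) := by exact_mod_cast hN
  have hp : (0 : ℝ) < ((2 * (n / 2) : ℕ) : ℝ) ^ k := pow_pos hN' k
  have hNN : NN n = 2 * (n / 2) := rfl
  rw [hNN] at a b
  have a' : (P n k : ℝ) / ((2 * (n / 2) : ℕ) : ℝ) ^ k ≤ 1 / 27 + ε := by
    rw [div_le_iff₀ hp]; exact a
  have b' : 1 / 27 - ε ≤ (P n k : ℝ) / ((2 * (n / 2) : ℕ) : ℝ) ^ k := by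
    rw [le_div_iff₀ hp]; exact b
  rw [abs_le]
  constructor <;> linarith

end Pool.Agent.Work.MP_1ce445_sm
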