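import Pool.Agent.Work.MP_1ce445_sm.Interface

/-! Block SMS: Theorem SMA without the hypothesis that all sets have at least two elements. -/

namespace Pool.Agent.Work.MP_1ce445_sm

open Finset Pool.Agent.Work.MP_1ce445_co_56 Pool.Agent.Work.MP_1ce445_lin

theorem SMS_pr_nonneg {V : Type} [Fintype V] {k : ℕ} (T : V → Finset (Fin k)) (j : Fin k) :
    0 ≤ pr T j := by
  unfold pr
  positivity

theorem SMS_pr_le_one {V : Type} [Fintype V] {k : ℕ} (hV : 0 < Fintype.card V)
    (T : V → Finset (Fin k)) (j : Fin k) : pr T j ≤ 1 := by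
  unfold pr
  rw [div_le_one (by exact_mod_cast hV)]
  exact_mod_cast (Finset.card_le_univ _)

theorem stmt_SMS (h1 : Stmt_SMA) : Stmt_SMS := by
  classical
  intro V _ k M T c hV hsub hc0 hc1 hfew
  have hVr : (0 : ℝ) < Fintype.card V := by exact_mod_cast hV
  have h0 : ∀ j, 0 ≤ pr T j := SMS_pr_nonneg T
  have h1' : ∀ j, pr T j ≤ 1 := SMS_pr_le_one hV T
  by_cases h2 : ∀ v, 2 ≤ (T v).card
  · exact h1 M T c ⟨hV, hsub, h2, hc0, hc1, hfew⟩
  · push Not at h2
    obtain ⟨v, hv⟩ := h2
    have hcard : (T v).card = 0 ∨ (T v).card = 1 := by omega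
    rcases hcard with h | h
    · exfalso
      have hE : T v = ∅ := Finset.card_eq_zero.1 h
      have hf := hfew v
      have hall : (univ.filter (fun w => T v ∩ T w = ∅)) = (univ : Finset V) := by
        ext w
        simp [hE]
      rw [hall, Finset.card_univ] at hf
      nlinarith
    · obtain ⟨i, hi⟩ := Finset.card_eq_one.1 h
      have hiM : i ∈ M := hsub v (by rw [hi]; exact Finset.mem_singleton_self i)
      have hf := hfew v
      have heq : (univ.filter (fun w => T v ∩ T w = ∅)) = (univ.filter (fun w => ¬ i ∈ T w)) := by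
        ext w
        simp only [Finset.mem_filter, Finset.mem_univ, true_and, hi]
        rw [← Finset.disjoint_iff_inter_eq_empty, Finset.disjoint_singleton_left]
      rw [heq] at hf
      have hsum := Finset.card_filter_add_card_filter_not (s := (univ : Finset V))
        (fun w => i ∈ T w)
      have hsum' : ((univ.filter (fun w => i ∈ T w)).card : ℝ) +
          ((univ.filter (fun w => ¬ i ∈ T w)).card : ℝ) = Fintype.card V := by
        rw [← Finset.card_univ]
        exact_mod_cast hsum
      have hpi : 1 - pr T i ≤ c := by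
        have : pr T i = ((univ.filter (fun w => i ∈ T w)).card : ℝ) / Fintype.card V := by
          unfold pr
          congr
        rw [this, sub_le_iff_le_add, ← sub_le_iff_le_add', le_div_iff₀ hVr]
        nlinarith
      rw [← Finset.mul_prod_erase M _ hiM]
      have hrest : ∏ x ∈ M.erase i, (1 - pr T x) ≤ 1 :=
        Finset.prod_le_one (fun x _ => by linarith [h1' x]) (fun x _ => by linarith [h0 x])
      have hrest0 : 0 ≤ ∏ x ∈ M.erase i, (1 - pr T x) :=
        Finset.prod_nonneg (fun x _ => by linarith [h1' x])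
      have hi0 : 0 ≤ 1 - pr T i := by linarith [h1' i]
      calc (1 - pr T i) * ∏ x ∈ M.erase i, (1 - pr T x) ≤ (1 - pr T i) * 1 :=
            mul_le_mul_of_nonneg_left hrest hi0
        _ ≤ 1 / 27 := by linarith

end Pool.Agent.Work.MP_1ce445_sm
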