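import Pool.Agent.Work.MP_1ce445_lin.Interface2

/-!
THEOREM SM for MP_1ce445_co: `P n k = (1/27 + o(1)) (NN n)^k` uniformly for `3 ≤ k ≤ n/36`. Definitions and
statements of the blocks, with complete proofs in the docstrings.

One file `Pool/Agent/Work/MP_1ce445_sm/<ID>.lean` per block, `import Pool.Agent.Work.MP_1ce445_sm.Interface`,
same `open` lines, theorem `stmt_<ID>` with exactly the statements of the column `uses` as hypotheses, in this
order; auxiliary lemmas with the name of the block in front (`STB_aux`). Models: `MP_1ce445_lin/AZE.lean`,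
`BAS.lean`, `AON.lean`, `ATW.lean`, `UP2.lean` (lemmas of these files may be copied).

`p_x = pr T x` is the fraction of the `v` with `x ∈ T v`; `N = |V|`. A pair `a, b` is called heavy if more than `c N` of
the `v` have `T v = {a, b}`; then every `T w` meets `{a, b}` (otherwise `few` is violated for `w`).
-/

namespace Pool.Agent.Work.MP_1ce445_sm

open Finset Pool.Agent.Work.MP_1ce445_co_56 Pool.Agent.Work.MP_1ce445_lin

/-- The hypotheses on the set system: all sets have at least two elements, and every set is disjoint from at most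
`c |V|` of the others, `c ≤ 7/250`. -/
structure Sm {V : Type} [Fintype V] {k : ℕ} (M : Finset (Fin k)) (T : V → Finset (Fin k))
    (c : ℝ) : Prop where
  pos : 0 < Fintype.card V
  sub : ∀ v, T v ⊆ M
  two : ∀ v, 2 ≤ (T v).card
  cl : 0 ≤ c
  cu : c ≤ 7 / 250
  few : ∀ v, ((univ.filter (fun w => T v ∩ T w = ∅)).card : ℝ) ≤ c * Fintype.card V

/-- number of the `v` with `T v = {a, b}` -/
def nex {V : Type} [Fintype V] {k : ℕ} (T : V → Finset (Fin k)) (a b : Fin k) : ℕ :=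
  (univ.filter (fun v => T v = {a, b})).card

/-- the partners of `a`: all `j ≠ a` such that some `T v` is `{a, j}` -/
def Ja {V : Type} [Fintype V] {k : ℕ} (T : V → Finset (Fin k)) (a : Fin k) : Finset (Fin k) :=
  univ.filter (fun j => j ≠ a ∧ 0 < nex T a j)

/-- STB (120 lines), a real inequality. Let `b' = max 0 (b - c)`, `x_j = 1 - b' - e_j`, `E = ∑ e_j`. For `B ∈ {1, 3/2, 2}`:
`x ≤ exp (B x - 1) / B` (`y + 1 ≤ exp y`, `y = B x - 1`). So `∏ x_j ≤ exp (-r A - B E)` with `r = |J| ≥ 3`,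
`A = log B + 1 - B (1 - b')`; if `A ≥ 0` then `∏ x_j ≤ exp (-3 A - B E)`, and as `B ≤ 2` and `E ≤ 1 - b` the left side is at
most `F = b exp (-B (1 - b) - 3 A)`. (i) `b ≤ 23/200`: `B = 1`, `A = b' ≥ 0`, `F ≤ b exp (-1 - 2 b + 3 c)` (at
`b = 0.115`, `c = 0.028`: `exp (-3.3088)`; increasing in `b`). (ii) `23/200 ≤ b ≤ 1/5`: `B = 3/2`,
`A = log (3/2) + 1 - (3/2)(1 - b') ≥ 0` (`b' ≥ 0.087`),
`log F = log b - 3 b - 3 log (3/2) + 9 c / 2` (`b' = b - c`), at `b = 1/5`, `c = 0.028`: `-3.2998` (increasing in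
`b ≤ 1/3`), and `log 27 = 3.2958`. (iii) `b ≥ 1/5`: `B = 2`, `A = log 2 - 1 + 2 b' ≥ 0`, `log F = log b - 4 b + 1 - 3 log 2 + 6 c`, and
`log b - 4 b ≤ log (1/4) - 1`, so `F ≤ exp (6 c) / 32`, `6 c ≤ 0.168`, `log (32/27) = 0.16990`. -/
def Stmt_STB : Prop :=
  ∀ {ι : Type} (J : Finset ι) (e : ι → ℝ) (b c : ℝ), 3 ≤ J.card → 0 ≤ c → c ≤ 7 / 250 →
    0 ≤ b → b ≤ 1 → (∀ j ∈ J, 0 ≤ e j) → ∑ j ∈ J, e j ≤ 1 - b →
    (∀ j ∈ J, 0 ≤ 1 - max 0 (b - c) - e j) →
    b * Real.exp (-(2 * (1 - b - ∑ j ∈ J, e j))) * ∏ j ∈ J, (1 - max 0 (b - c) - e j) ≤ 1 / 27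

/-- STR (180 lines; uses STB). `b = 1 - p_a`, `e_j = nex T a j / N` for `j ∈ J = Ja T a`. For `j ∈ J` take `v` with
`T v = {a, j}`: at most `c N` sets contain neither `a` nor `j`, so at least `(b - c) N` sets contain `j` and not `a`. For
`j ≠ a` let `g_j N` be the number of the `v` with `a, j ∈ T v` and `|T v| ≥ 3`. Then `p_j ≥ b' + e_j + g_j` for `j ∈ J`,
`p_j ≥ g_j` for `j ∉ J`, and `∑_{j ≠ a} g_j ≥ 2 (1 - b - E)` (a set which contains `a` and is not one of the `{a, j}` has at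
least two further elements, `two`). `x - g ≤ x e^{-g}` for `0 ≤ x ≤ 1`, so the product is at most
`b e^{-2 (1 - b - E)} ∏_J (1 - b' - e_j)`. -/
def Stmt_STR : Prop :=
  ∀ {V : Type} [Fintype V] {k : ℕ} (M : Finset (Fin k)) (T : V → Finset (Fin k)) (c : ℝ),
    Sm M T c → ∀ a : Fin k, 3 ≤ (Ja T a).card → ∏ x ∈ M, (1 - pr T x) ≤ 1 / 27

/-- TRI (80 lines): a heavy triangle. Every `T w` meets `{a, b}`, `{a, d}`, `{b, d}`, so it contains two of `a, b, d`:
`p_a + p_b + p_d ≥ 2`, and `(1 - p_a)(1 - p_b)(1 - p_d) ≤ 1/27` by AM-GM. (`a, b, d ∈ M` by `sub`.) -/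
def Stmt_TRI : Prop :=
  ∀ {V : Type} [Fintype V] {k : ℕ} (M : Finset (Fin k)) (T : V → Finset (Fin k)) (c : ℝ),
    Sm M T c → ∀ a b d : Fin k, a ≠ b → a ≠ d → b ≠ d →
    c * Fintype.card V < nex T a b → c * Fintype.card V < nex T a d →
    c * Fintype.card V < nex T b d → ∏ x ∈ M, (1 - pr T x) ≤ 1 / 27

/-- FEW (100 lines; uses TAN; model `AZE.lean`). `∑ p_x = (∑_v |T v|)/N ≥ 3 - 3/10`;
`∑ p_x² = (∑_{v,w} |T v ∩ T w|)/N² ≥ 1 - c ≥ 243/250`. TAN (second part): the product is at most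
`exp (-(26/27) (27/10) - (13/18)(243/250)) = exp (-3.302) ≤ 1/27`. -/
def Stmt_FEW : Prop :=
  ∀ {V : Type} [Fintype V] {k : ℕ} (M : Finset (Fin k)) (T : V → Finset (Fin k)) (c : ℝ),
    Sm M T c → ((univ.filter (fun v => (T v).card = 2)).card : ℝ) ≤ 3 / 10 * Fintype.card V →
    ∏ x ∈ M, (1 - pr T x) ≤ 1 / 27

/-- HEA (80 lines). Take `v` with `T v = {x, y}`. At most `c N` of the 2-sets are disjoint from it; the others are
`{x, j}`, `j ∈ Ja T x` (`y` and at most one other `y'`) or `{y, j}`, `j ∈ Ja T y` (`x` and at most one other `x'`). So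
`nex T x y + nex T x y' + nex T y x' ≥ (3/10 - c) N > 3 c N`. -/
def Stmt_HEA : Prop :=
  ∀ {V : Type} [Fintype V] {k : ℕ} (M : Finset (Fin k)) (T : V → Finset (Fin k)) (c : ℝ),
    Sm M T c → (∀ a, (Ja T a).card ≤ 2) →
    3 / 10 * (Fintype.card V : ℝ) < ((univ.filter (fun v => (T v).card = 2)).card : ℝ) →
    ∃ a b : Fin k, a ≠ b ∧ c * Fintype.card V < nex T a b

/-- CI (120 lines). `α = 1 - p_b`, `β = 1 - p_a`. A set without `b` contains `a` (heavy) and at least two further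
elements, unless it has two elements; the same for the sets without `a`. So
`∑_{x ≠ a, b} p_x ≥ 2 α - c + 2 β - c`, the product is at most `α β e^{-2 α - 2 β + 2 c}`, `α e^{-2 α} ≤ 1/(2 e)`, and
`e^{2 c}/(4 e²) ≤ 0.0358 < 1/27`. -/
def Stmt_CI : Prop :=
  ∀ {V : Type} [Fintype V] {k : ℕ} (M : Finset (Fin k)) (T : V → Finset (Fin k)) (c : ℝ),
    Sm M T c → ∀ a b : Fin k, a ≠ b → c * Fintype.card V < nex T a b →
    ((univ.filter (fun v => (T v).card = 2 ∧ b ∉ T v)).card : ℝ) ≤ c * Fintype.card V →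
    ((univ.filter (fun v => (T v).card = 2 ∧ a ∉ T v)).card : ℝ) ≤ c * Fintype.card V →
    ∏ x ∈ M, (1 - pr T x) ≤ 1 / 27

/-- CII (180 lines). `β = 1 - p_a`, `e₁ = nex T a b / N`, `e₂ = nex T a d / N`, `E = e₁ + e₂`. The sets without `a` contain
`b` and `d` (heavy), and all but `c N` of them have a further element. A set which contains `a` and is not `{a, b}` or
`{a, d}` has at least two further elements (`Ja T a ⊆ {b, d}`). With `g_j` as in STR: `1 - p_b ≤ (1 - β - e₁) e^{-g_b}`,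
`1 - p_d ≤ (1 - β - e₂) e^{-g_d}`, and the other factors give at most `e^{-(β - c)}` times the `e^{-g_j}`; `∑ g_j ≥
2 (1 - β - E)`. So the product is at most `β (1 - β - e₁)(1 - β - e₂) e^{-2 (1 - β - E) - (β - c)}`, and with
`x ≤ e^{2x - 1}/2` at most `(β/4) e^{-3 β + c} ≤ e^c/(12 e) ≤ 0.0316`. -/
def Stmt_CII : Prop :=
  ∀ {V : Type} [Fintype V] {k : ℕ} (M : Finset (Fin k)) (T : V → Finset (Fin k)) (c : ℝ),
    Sm M T c → ∀ a b d : Fin k, a ≠ b → a ≠ d → b ≠ d →
    c * Fintype.card V < nex T a b → c * Fintype.card V < nex T a d →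
    (nex T b d : ℝ) ≤ c * Fintype.card V → Ja T a ⊆ {b, d} → ∏ x ∈ M, (1 - pr T x) ≤ 1 / 27

/-- SMA (100 lines; uses STR TRI FEW HEA CI CII). If some `Ja T a` has at least 3 elements: STR. If at most `3/10` of the
sets have 2 elements: FEW. Otherwise HEA gives a heavy pair `a, b`. If at most `c N` of the 2-sets do not contain `b` and
at most `c N` do not contain `a`: CI. If more than `c N` of the 2-sets do not contain `b`: they contain `a`, are
`{a, j}` with `j ∈ Ja T a`, `j ≠ b`, and as `b ∈ Ja T a` and `|Ja T a| ≤ 2` there is only one such `j`, call it `d`; so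
`nex T a d > c N`, `Ja T a = {b, d}`; TRI if `nex T b d > c N`, otherwise CII. The last case is the same with `a` and `b`
exchanged (`nex T a b = nex T b a`). -/
def Stmt_SMA : Prop :=
  ∀ {V : Type} [Fintype V] {k : ℕ} (M : Finset (Fin k)) (T : V → Finset (Fin k)) (c : ℝ),
    Sm M T c → ∏ x ∈ M, (1 - pr T x) ≤ 1 / 27

/-- SMS (60 lines; uses SMA): without the hypothesis `two`. `T v = ∅` is impossible (`few` for `v`, `c < 1`). If
`T v = {i}` then at most `c N` sets do not contain `i`, `1 - p_i ≤ c ≤ 1/27`, `i ∈ M`, and the other factors are in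
`[0, 1]`. -/
def Stmt_SMS : Prop :=
  ∀ {V : Type} [Fintype V] {k : ℕ} (M : Finset (Fin k)) (T : V → Finset (Fin k)) (c : ℝ),
    0 < Fintype.card V → (∀ v, T v ⊆ M) → 0 ≤ c → c ≤ 7 / 250 →
    (∀ v, ((univ.filter (fun w => T v ∩ T w = ∅)).card : ℝ) ≤ c * Fintype.card V) →
    ∏ x ∈ M, (1 - pr T x) ≤ 1 / 27

/-- UP3 (200 lines; uses CORE SMS; model `UP2.lean`, simpler: the constant `1/27` instead of `Phi`, no case (a)). `s` small
(`s ≤ 1/20000`), then `R`, `t`, then `n` large. First alternative of CORE: `e^{-4} ≤ 1/27`. Second: `V = {v // v ∈ Vg}` with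
the restriction of `T`; for `v ∈ Vg` the number of the `w ∈ Vg` with `T v ∩ T w = ∅` is at most
`k + 1 + s n ≤ (7/250)(1 - s) n ≤ (7/250) |Vg|` (`1/36 = 0.02777..`, `7/250 = 0.028`). SMS: `∏_M (1 - q_j) ≤ 1/27`,
`q_j` the fraction in `Vg`. The rest as in UP2: `p_j ≥ (1 - s) q_j`; if `∑_M q_j ≥ 5` then the product is `≤ e^{-4}`;
otherwise `∏ (1 - p_j + t) ≤ ∏ (1 - q_j) + 5 s + ((1 + t)^|M| - 1)`. -/
def Stmt_UP3 : Prop :=
  ∀ ε : ℝ, 0 < ε → ∃ n0 : ℕ, ∀ n k : ℕ, n0 ≤ n → (k : ℝ) ≤ n / 36 →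
    (P n k : ℝ) ≤ (1 / 27 + ε) * (NN n : ℝ) ^ k

/-- LE3 (150 lines), even `n`, `q = n - 1` odd. `V = Option (ZMod q)`; label of `{some x, some y}` is `x + y`, label of
`{none, some x}` is `x + x`; each label class is a perfect matching (`2` is invertible; cf. `Odd.lean`). Let
`blk : V → ZMod 3` with `blk (some x) = x.val` modulo 3 (`blk none = 2`, say). `third` of `Lower.lean`: `third a b ≠ a, b`
(lemmas `third_comm`, `third_ne`). Factors: index type `Fin (k - 3) ⊕ ZMod 3`; `inl i`: the pairs with label `i`;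
`inr j`: the pairs with label `k - 3 + j.val`, and all pairs `v ≠ w` whose label has `val ≥ k` and
`third (blk v) (blk w) = j`. `gammaT (inl i) ≥ n` and `gammaT (inr j) ≥ #{v | blk v = j} ≥ n/3 - 1` by `card_le_gammaT`
(a vertex `v` with `blk v = j` has in the factor `inr j` only the neighbour in the matching). `le_P`. -/
def Stmt_LE3 : Prop :=
  ∀ n k : ℕ, Even n → 3 ≤ k → k + 1 ≤ n → n ^ (k - 3) * (n / 3 - 1) ^ 3 ≤ P n k

/-- LO3 (200 lines), odd `n`. `V = ZMod n`. For `i` with `val < k`: the class `i` is the set of the pairs `x ≠ y` with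
`x + y = i + i` (all vertices except `i` are matched), and the extra pair `{i, i + 2 k}`, which is in the class `i + k`
(`val` in `[k, 2k)`); the extra pairs are different (`5 k ≤ n`). `blk x = x.val` modulo 3. Factors: index type
`Fin (k - 3) ⊕ ZMod 3`; `inl i`: class `i` and the extra pair of `i`; `inr j`: the same for the index `k - 3 + j.val`, and
all pairs `x ≠ y` which are in a class `i` with `val ≥ k`, are not extra pairs and satisfy `third (blk x) (blk y) = j`.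
`gammaT (inl i) ≥ n - 1`: `GAM_sub_one` (in `MP_1ce445_lin/GAM.lean`) with `x0 = i + 2 k`, `v = i`.
`gammaT (inr j) ≥ #{x | blk x = j} - 2 ≥ n/3 - 2` by `card_le_gammaT`, for the `x` with `blk x = j` which are not in the
extra pair. -/
def Stmt_LO3 : Prop :=
  ∀ n k : ℕ, Odd n → 3 ≤ k → 5 * k ≤ n → (n - 1) ^ (k - 3) * (n / 3 - 2) ^ 3 ≤ P n k

/-- LW3 (80 lines; uses LE3 LO3). `NN n = n` or `n - 1`; `(n/3 - 2)³ ≥ (1/27 - ε) n³` for large `n`. -/
def Stmt_LW3 : Prop :=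
  ∀ ε : ℝ, 0 < ε → ∃ n0 : ℕ, ∀ n k : ℕ, n0 ≤ n → 3 ≤ k → (k : ℝ) ≤ n / 36 →
    (1 / 27 - ε) * (NN n : ℝ) ^ k ≤ (P n k : ℝ)

end Pool.Agent.Work.MP_1ce445_sm
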